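import Mathlib

/-!
# Cliques from many pairs in sparse sets (helper13, for helper16's P3)
-/

set_option autoImplicit false

namespace Pool.Agent.H13.P3

open Finset

open Classical in
/-- the `k`-element subsets of `A` all whose differences satisfy `G N` -/
noncomputable def cl (G : ℕ → ℤ → Prop) (N : ℕ) (A : Finset ℕ) (k : ℕ) : Finset (Finset ℕ) :=
  (A.powersetCard k).filter (fun S : Finset ℕ => ∀ a ∈ S, ∀ b ∈ S, a < b → G N ((b : ℤ) - a))

open Classical in
/-- the elements of `A` above `a` whose difference with `a` satisfies `G N` -/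
noncomputable def nb (G : ℕ → ℤ → Prop) (N : ℕ) (A : Finset ℕ) (a : ℕ) : Finset ℕ :=
  A.filter (fun b : ℕ => a < b ∧ G N ((b : ℤ) - a))

lemma mem_cl {G : ℕ → ℤ → Prop} {N : ℕ} {A : Finset ℕ} {k : ℕ} {S : Finset ℕ} :
    S ∈ cl G N A k ↔ (S ⊆ A ∧ S.card = k) ∧ ∀ a ∈ S, ∀ b ∈ S, a < b → G N ((b : ℤ) - a) := by
  classical
  unfold cl
  rw [mem_filter, mem_powersetCard]

lemma mem_nb {G : ℕ → ℤ → Prop} {N : ℕ} {A : Finset ℕ} {a b : ℕ} :
    b ∈ nb G N A a ↔ b ∈ A ∧ a < b ∧ G N ((b : ℤ) - a) := by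
  classical
  unfold nb
  rw [mem_filter]

lemma nb_subset (G : ℕ → ℤ → Prop) (N : ℕ) (A : Finset ℕ) (a : ℕ) : nb G N A a ⊆ A := fun _ h => (mem_nb.1 h).1

/-- the smallest element of a clique -/
lemma sum_cl (G : ℕ → ℤ → Prop) (N : ℕ) (A B : Finset ℕ) (hB : B ⊆ A) (k : ℕ) :
    ∑ a ∈ B, (cl G N (nb G N A a) k).card ≤ (cl G N A (k + 1)).card := by
  classical
  rw [← card_sigma]
  apply card_le_card_of_injOn (fun x : (_ : ℕ) × Finset ℕ => insert x.1 x.2)
  · rintro ⟨a, S⟩ hx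
    obtain ⟨ha, hS⟩ := mem_sigma.1 (mem_coe.1 hx)
    simp only at ha hS
    obtain ⟨⟨h1, h2⟩, h3⟩ := mem_cl.1 hS
    have h4 : ∀ b ∈ S, b ∈ A ∧ a < b ∧ G N ((b : ℤ) - a) := fun b hb => mem_nb.1 (h1 hb)
    rw [mem_coe, mem_cl]
    refine ⟨⟨?_, ?_⟩, ?_⟩
    · intro b hb
      rcases mem_insert.1 hb with h | h
      · rw [h]
        exact hB ha
      · exact (h4 b h).1
    · rw [card_insert_of_notMem, h2]
      intro h
      exact absurd (h4 a h).2.1 (lt_irrefl _)
    · intro b hb c hc hbc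
      rcases mem_insert.1 hb with h | h
      · rcases mem_insert.1 hc with h' | h'
        · simp only at h h'
          omega
        · simp only at h
          rw [h]
          exact (h4 c h').2.2
      · rcases mem_insert.1 hc with h' | h'
        · have := (h4 b h).2.1
          simp only at h'
          omega
        · exact h3 b h c h' hbc
  · rintro ⟨a, S⟩ hx ⟨a', S'⟩ hx' hxx
    obtain ⟨ha, hS⟩ := mem_sigma.1 (mem_coe.1 hx)
    obtain ⟨ha', hS'⟩ := mem_sigma.1 (mem_coe.1 hx')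
    simp only at ha hS ha' hS' hxx
    have h4 : ∀ b ∈ S, a < b := fun b hb => (mem_nb.1 ((mem_cl.1 hS).1.1 hb)).2.1
    have h4' : ∀ b ∈ S', a' < b := fun b hb => (mem_nb.1 ((mem_cl.1 hS').1.1 hb)).2.1
    have haa : a = a' := by
      have h5 : a ∈ insert a' S' := by rw [← hxx]; exact mem_insert_self _ _
      have h6 : a' ∈ insert a S := by rw [hxx]; exact mem_insert_self _ _
      rcases mem_insert.1 h5 with h | h
      · exact h
      · rcases mem_insert.1 h6 with h' | h'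
        · exact h'.symm
        · have := h4' a h
          have := h4 a' h'
          omega
    subst haa
    have hSS : S = S' := by
      have h5 : a ∉ S := fun h => lt_irrefl _ (h4 a h)
      have h6 : a ∉ S' := fun h => lt_irrefl _ (h4' a h)
      rw [← erase_insert h5, hxx, erase_insert h6]
    subst hSS
    rfl

lemma pairs_eq (G : ℕ → ℤ → Prop) (N : ℕ) (A : Finset ℕ) :
    (by classical exact ((A ×ˢ A).filter (fun x : ℕ × ℕ => x.1 < x.2 ∧ G N ((x.2 : ℤ) - x.1))).card) =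
      ∑ a ∈ A, (nb G N A a).card := by
  classical
  rw [Finset.card_filter, sum_product]
  apply sum_congr rfl
  intro a _
  rw [← Finset.card_filter]
  unfold nb
  congr!

/-- one step: many elements with many neighbours -/
lemma many (G : ℕ → ℤ → Prop) (N : ℕ) (A : Finset ℕ) (δ : ℝ) (hδ : 0 ≤ δ)
    (h : (A.card : ℝ) ^ 2 * δ ≤ ∑ a ∈ A, ((nb G N A a).card : ℝ)) :
    ∃ B ⊆ A, (A.card : ℝ) * (δ / 2) ≤ B.card ∧ ∀ a ∈ B, (A.card : ℝ) * (δ / 2) ≤ (nb G N A a).card := by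
  classical
  rcases A.eq_empty_or_nonempty with he | hne
  · subst he
    exact ⟨∅, Subset.refl _, by simp, by simp⟩
  have hA : (0 : ℝ) < A.card := by exact_mod_cast hne.card_pos
  refine ⟨A.filter (fun a => (A.card : ℝ) * (δ / 2) ≤ (nb G N A a).card), filter_subset _ _, ?_,
    fun a ha => (mem_filter.1 ha).2⟩
  set B := A.filter (fun a => (A.card : ℝ) * (δ / 2) ≤ (nb G N A a).card) with hB
  have h1 : ∑ a ∈ A, ((nb G N A a).card : ℝ) ≤ ∑ a ∈ A, ((if a ∈ B then (A.card : ℝ) else 0) + A.card * (δ / 2)) := by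
    apply sum_le_sum
    intro a ha
    have h2 : ((nb G N A a).card : ℝ) ≤ A.card := by exact_mod_cast card_le_card (nb_subset G N A a)
    have h3 : 0 ≤ (A.card : ℝ) * (δ / 2) := by positivity
    by_cases hb : a ∈ B
    · rw [if_pos hb]
      linarith
    · rw [if_neg hb]
      have h4 : ¬ (A.card : ℝ) * (δ / 2) ≤ (nb G N A a).card := fun h => hb (mem_filter.2 ⟨ha, h⟩)
      push Not at h4
      linarith
  have h5 : ∑ a ∈ A, ((if a ∈ B then (A.card : ℝ) else 0) + A.card * (δ / 2)) =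
      B.card * A.card + A.card * (A.card * (δ / 2)) := by
    rw [sum_add_distrib, sum_const, nsmul_eq_mul, ← sum_filter, sum_const, nsmul_eq_mul]
    congr 3
    rw [filter_mem_eq_inter, inter_eq_right.2 (filter_subset _ _)]
  have h6 : (A.card : ℝ) * ((A.card : ℝ) * (δ / 2)) ≤ A.card * B.card := by
    have h7 := (h.trans h1).trans h5.le
    have h8 : (A.card : ℝ) ^ 2 * δ = A.card * (A.card * (δ / 2)) + A.card * (A.card * (δ / 2)) := by ring
    have h9 : (B.card : ℝ) * A.card = A.card * B.card := mul_comm _ _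
    linarith
  exact le_of_mul_le_mul_left h6 hA

open Classical in
theorem cliques_abs (G : ℕ → ℤ → Prop) (κ : ℝ)
    (H : ∀ ε : ℝ, 0 < ε → ∃ N₀ : ℕ, ∀ N : ℕ, N₀ ≤ N → ∀ (u : ℕ) (A : Finset ℕ), A ⊆ Ioc u (u + N) →
      (N : ℝ) ^ (1 - κ) ≤ A.card → (A.card : ℝ) ^ 2 * (N : ℝ) ^ (-ε) ≤
        ((A ×ˢ A).filter (fun x : ℕ × ℕ => x.1 < x.2 ∧ G N ((x.2 : ℤ) - x.1))).card) :
    ∀ κ' : ℝ, κ' < κ → ∀ k : ℕ, ∀ ε : ℝ, 0 < ε → ∃ N₀ : ℕ, ∀ N : ℕ, N₀ ≤ N → ∀ (u : ℕ) (A : Finset ℕ),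
      A ⊆ Ioc u (u + N) → (N : ℝ) ^ (1 - κ') ≤ A.card → (A.card : ℝ) ^ k * (N : ℝ) ^ (-ε) ≤
        ((A.powersetCard k).filter (fun S : Finset ℕ => ∀ a ∈ S, ∀ b ∈ S, a < b → G N ((b : ℤ) - a))).card := by
  suffices hmain : ∀ k : ℕ, ∀ κ' : ℝ, κ' < κ → ∀ ε : ℝ, 0 < ε → ∃ N₀ : ℕ, ∀ N : ℕ, N₀ ≤ N →
      ∀ (u : ℕ) (A : Finset ℕ), A ⊆ Ioc u (u + N) → (N : ℝ) ^ (1 - κ') ≤ A.card →
      (A.card : ℝ) ^ k * (N : ℝ) ^ (-ε) ≤ (cl G N A k).card by
    intro κ' hκ k ε hε
    obtain ⟨N₀, hN₀⟩ := hmain k κ' hκ ε hε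
    exact ⟨N₀, fun N hN u A hA hAc => hN₀ N hN u A hA hAc⟩
  intro k
  induction k with
  | zero =>
    intro κ' _ ε hε
    refine ⟨1, fun N hN u A _ _ => ?_⟩
    have hN1 : (1 : ℝ) ≤ N := by exact_mod_cast hN
    have h1 : (1 : ℝ) ≤ (cl G N A 0).card := by
      have : (∅ : Finset ℕ) ∈ cl G N A 0 := by
        rw [mem_cl]
        exact ⟨⟨empty_subset _, card_empty⟩, fun a ha => absurd ha (notMem_empty _)⟩
      exact_mod_cast card_pos.2 ⟨_, this⟩
    rw [pow_zero, one_mul]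
    exact (Real.rpow_le_one_of_one_le_of_nonpos hN1 (by linarith)).trans h1
  | succ k ih =>
    intro κ' hκ ε hε
    obtain ⟨N₁, hN₁⟩ := ih ((κ' + κ) / 2) (by linarith) (ε / 2) (by positivity)
    obtain ⟨e, he⟩ : ∃ e : ℝ, e = min (ε / (4 * (k + 1))) ((κ - κ') / 4) := ⟨_, rfl⟩
    have hκκ : 0 < κ - κ' := by linarith
    have he0 : 0 < e := by rw [he]; positivity
    have he1 : e * (k + 1) ≤ ε / 4 := by
      have h1 : e ≤ ε / (4 * (k + 1)) := by rw [he]; exact min_le_left _ _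
      calc e * (k + 1) ≤ ε / (4 * (k + 1)) * (k + 1) := by gcongr
        _ = ε / 4 := by field_simp
    have he2 : e ≤ (κ - κ') / 4 := by rw [he]; exact min_le_right _ _
    obtain ⟨N₂, hN₂⟩ := H e he0
    have ht1 := (tendsto_rpow_atTop (show (0 : ℝ) < (κ - κ') / 4 by positivity)).comp
      tendsto_natCast_atTop_atTop
    have ht2 := (tendsto_rpow_atTop (show (0 : ℝ) < ε / 4 by positivity)).comp tendsto_natCast_atTop_atTop
    obtain ⟨N₃, hN₃⟩ := Filter.eventually_atTop.1 ((ht1.eventually_ge_atTop 2).and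
      (ht2.eventually_ge_atTop (2 ^ (k + 1))))
    refine ⟨N₁ + N₂ + N₃ + 1, ?_⟩
    intro N hN u A hA hAc
    obtain ⟨hb1, hb2⟩ := hN₃ N (by omega)
    simp only [Function.comp] at hb1 hb2
    have hN1 : (1 : ℝ) ≤ N := by exact_mod_cast (by omega : 1 ≤ N)
    have hN0 : (0 : ℝ) < N := by linarith
    have hpairs := hN₂ N (by omega) u A hA (by
      refine le_trans ?_ hAc
      apply Real.rpow_le_rpow_of_exponent_le hN1
      linarith)
    have hpe : (((A ×ˢ A).filter (fun x : ℕ × ℕ => x.1 < x.2 ∧ G N ((x.2 : ℤ) - x.1))).card : ℝ) =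
        ∑ a ∈ A, ((nb G N A a).card : ℝ) := by
      have := pairs_eq G N A
      rw [← Nat.cast_sum, ← this]
    rw [hpe] at hpairs
    obtain ⟨B, hBA, hBc, hBn⟩ := many G N A ((N : ℝ) ^ (-e)) (by positivity) hpairs
    have hA0 : (0 : ℝ) ≤ A.card := Nat.cast_nonneg _
    have hhalf : (0 : ℝ) ≤ A.card * ((N : ℝ) ^ (-e) / 2) := by positivity
    -- the neighbourhoods are large
    have hlarge : (N : ℝ) ^ (1 - (κ' + κ) / 2) ≤ A.card * ((N : ℝ) ^ (-e) / 2) := by
      calc (N : ℝ) ^ (1 - (κ' + κ) / 2) = (N : ℝ) ^ (1 - κ') * (N : ℝ) ^ (-((κ - κ') / 2)) := by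
            rw [← Real.rpow_add hN0]
            congr 1
            ring
        _ ≤ A.card * ((N : ℝ) ^ (-e) / 2) := by
            apply mul_le_mul hAc _ (by positivity) hA0
            rw [le_div_iff₀ (by norm_num)]
            calc (N : ℝ) ^ (-((κ - κ') / 2)) * 2 ≤ (N : ℝ) ^ (-((κ - κ') / 2)) * (N : ℝ) ^ ((κ - κ') / 4) := by
                  gcongr
              _ = (N : ℝ) ^ (-((κ - κ') / 4)) := by
                  rw [← Real.rpow_add hN0]
                  congr 1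
                  ring
              _ ≤ (N : ℝ) ^ (-e) := Real.rpow_le_rpow_of_exponent_le hN1 (by linarith)
    have hcl : ∀ a ∈ B, (A.card * ((N : ℝ) ^ (-e) / 2)) ^ k * (N : ℝ) ^ (-(ε / 2)) ≤
        ((cl G N (nb G N A a) k).card : ℝ) := by
      intro a ha
      refine le_trans ?_ (hN₁ N (by omega) u (nb G N A a) ((nb_subset G N A a).trans hA) (hlarge.trans (hBn a ha)))
      have := hBn a ha
      gcongr
    have hsum := sum_cl G N A B hBA k
    have hsumR : ∑ a ∈ B, ((cl G N (nb G N A a) k).card : ℝ) ≤ (cl G N A (k + 1)).card := by exact_mod_cast hsum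
    refine le_trans ?_ hsumR
    calc (A.card : ℝ) ^ (k + 1) * (N : ℝ) ^ (-ε) ≤
        (A.card * ((N : ℝ) ^ (-e) / 2)) * ((A.card * ((N : ℝ) ^ (-e) / 2)) ^ k * (N : ℝ) ^ (-(ε / 2))) := by
          have h1 : (A.card * ((N : ℝ) ^ (-e) / 2)) * ((A.card * ((N : ℝ) ^ (-e) / 2)) ^ k * (N : ℝ) ^ (-(ε / 2))) =
              (A.card : ℝ) ^ (k + 1) * (((N : ℝ) ^ (-e) / 2) ^ (k + 1) * (N : ℝ) ^ (-(ε / 2))) := by
            rw [mul_pow, pow_succ, pow_succ]
            ring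
          rw [h1]
          apply mul_le_mul_of_nonneg_left _ (by positivity)
          have h2 : ((N : ℝ) ^ (-e)) ^ (k + 1) = (N : ℝ) ^ (-(e * (k + 1))) := by
            rw [← Real.rpow_natCast, ← Real.rpow_mul hN0.le]
            congr 1
            push_cast
            ring
          rw [div_pow, h2, div_mul_eq_mul_div, le_div_iff₀ (by positivity)]
          calc (N : ℝ) ^ (-ε) * 2 ^ (k + 1) ≤ (N : ℝ) ^ (-ε) * (N : ℝ) ^ (ε / 4) := by gcongr
            _ = (N : ℝ) ^ (-(ε / 4)) * (N : ℝ) ^ (-(ε / 2)) := by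
                rw [← Real.rpow_add hN0, ← Real.rpow_add hN0]
                congr 1
                ring
            _ ≤ (N : ℝ) ^ (-(e * (k + 1))) * (N : ℝ) ^ (-(ε / 2)) := by
                apply mul_le_mul_of_nonneg_right _ (by positivity)
                exact Real.rpow_le_rpow_of_exponent_le hN1 (by linarith)
      _ ≤ B.card * ((A.card * ((N : ℝ) ^ (-e) / 2)) ^ k * (N : ℝ) ^ (-(ε / 2))) := by
          apply mul_le_mul_of_nonneg_right hBc (by positivity)
      _ = ∑ _a ∈ B, ((A.card * ((N : ℝ) ^ (-e) / 2)) ^ k * (N : ℝ) ^ (-(ε / 2))) := by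
          rw [sum_const, nsmul_eq_mul]
      _ ≤ _ := sum_le_sum hcl

end Pool.Agent.H13.P3
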