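import Pool.Agent.H13.P3.Id

/-!
# Bounds for the coefficients (helper13, for helper16's P3; adapted from helper14's Est, Far)
-/

set_option autoImplicit false

namespace Pool.Agent.H13.P3

open Finset
open Pool.Agent.H14.VC

section
variable (P : Finset ℕ) (hP : ∀ p ∈ P, p.Prime) (T : ℕ → ℤ → Prop) (g : ℝ) (hg : 1 ≤ g)
  (hT : ∀ p ∈ P, cT (T p) p 0 ≤ g) (x : ℕ → ℕ)

include hP hg hT

lemma farJ (G0 H : ℝ) (B : ℕ) (hG0 : G0 = g ^ 2 + 3 * g) (hB : 4 * G0 ^ 2 ≤ B)
    (hH : ∑ p ∈ P, 1 / (p : ℝ) ≤ H) :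
    ∏ p ∈ P, ((1 + (if x p = 0 then g / p else 1)) * Jf g T x p) ≤
      Real.exp ((g + G0) * H) * (2 * G0) ^ B / Real.sqrt (qx P x : ℕ) := by
  have hG01 : 1 ≤ G0 := by rw [hG0]; nlinarith
  have hp0 : ∀ p ∈ P, (0 : ℝ) < p := fun p hp => by exact_mod_cast (hP p hp).pos
  have hv0 : ∀ p ∈ P, 0 ≤ (if x p = 0 then g / p else 1) := by
    intro p hp
    have := hp0 p hp
    split_ifs <;> positivity
  have hJ0 : ∀ p ∈ P, 0 ≤ Jf g T x p := J_nn P hP T g hg hT x
  have h4 : ∀ p ∈ P, (1 + (if x p = 0 then g / p else 1)) * Jf g T x p ≤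
      Real.exp ((g + G0) * (1 / p)) * (if p ≤ B then 2 * G0 else 1) * (if x p = 0 then 1 else 1 / Real.sqrt p) := by
    intro p hp
    have hpp := hp0 p hp
    have hb1 : (1 : ℝ) ≤ (if p ≤ B then 2 * G0 else 1) := by split_ifs <;> linarith
    have hexp1 : 1 ≤ Real.exp ((g + G0) * (1 / p)) := Real.one_le_exp (by positivity)
    by_cases h : x p = 0
    · simp only [if_pos h]
      have hJ := J_one P hP T g hg hT x p hp h
      rw [← hG0] at hJ
      have e1 : 1 + g / p ≤ Real.exp (g * (1 / p)) := by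
        have := Real.add_one_le_exp (g * (1 / p))
        have e : g / p = g * (1 / p) := by ring
        linarith
      have e2 : Jf g T x p ≤ Real.exp (G0 * (1 / p)) := by
        have := Real.add_one_le_exp (G0 * (1 / p))
        have e : G0 / p = G0 * (1 / p) := by ring
        linarith [hJ.2]
      have e3 : (1 + g / p) * Jf g T x p ≤ Real.exp ((g + G0) * (1 / p)) := by
        have e0 : (g + G0) * (1 / (p : ℝ)) = g * (1 / p) + G0 * (1 / p) := by ring
        rw [e0, Real.exp_add]
        exact mul_le_mul e1 e2 (by linarith [hJ.1]) (Real.exp_pos _).le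
      rw [mul_one]
      have e4 : Real.exp ((g + G0) * (1 / p)) ≤ Real.exp ((g + G0) * (1 / p)) * (if p ≤ B then 2 * G0 else 1) := by
        have := Real.exp_pos ((g + G0) * (1 / p))
        nlinarith
      exact e3.trans e4
    · simp only [if_neg h]
      have hJ := J_two P hP T g hg hT x p hp h
      rw [← hG0] at hJ
      have hsq : 0 < Real.sqrt p := Real.sqrt_pos.2 hpp
      have hss : Real.sqrt p * Real.sqrt p = p := Real.mul_self_sqrt hpp.le
      have e1 : (1 + 1) * Jf g T x p ≤ 2 * G0 / p := by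
        have : 2 * G0 / p = 2 * (G0 / p) := by ring
        rw [this]
        linarith [hJ.2]
      have e2 : 2 * G0 / p ≤ (if p ≤ B then 2 * G0 else 1) * (1 / Real.sqrt p) := by
        rw [mul_one_div, div_le_div_iff₀ hpp hsq]
        split_ifs with hpB
        · have : Real.sqrt p ≤ p := by
            have h1p : (1 : ℝ) ≤ p := by exact_mod_cast (hP p hp).one_lt.le
            have : 1 ≤ Real.sqrt p := by rw [Real.one_le_sqrt]; exact h1p
            nlinarith
          exact mul_le_mul_of_nonneg_left this (by linarith)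
        · push Not at hpB
          have h5 : 4 * G0 ^ 2 ≤ p := hB.trans (by exact_mod_cast hpB.le)
          have h6 : 2 * G0 ≤ Real.sqrt p := by
            apply Real.le_sqrt_of_sq_le
            nlinarith
          nlinarith
      have e3 : (if p ≤ B then 2 * G0 else 1) * (1 / Real.sqrt p) ≤
          Real.exp ((g + G0) * (1 / p)) * ((if p ≤ B then 2 * G0 else 1) * (1 / Real.sqrt p)) := by
        have : 0 ≤ (if p ≤ B then 2 * G0 else 1) * (1 / Real.sqrt p) := by
          have : 0 ≤ 1 / Real.sqrt p := by positivity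
          exact mul_nonneg (by linarith) this
        nlinarith
      calc (1 + 1) * Jf g T x p ≤ _ := e1.trans (e2.trans e3)
        _ = _ := by ring
  refine (Finset.prod_le_prod (fun p hp => mul_nonneg (by linarith [hv0 p hp]) (hJ0 p hp)) h4).trans ?_
  rw [prod_mul_distrib, prod_mul_distrib]
  have e1 : ∏ p ∈ P, Real.exp ((g + G0) * (1 / p)) ≤ Real.exp ((g + G0) * H) := by
    rw [← Real.exp_sum, ← mul_sum]
    apply Real.exp_le_exp.2
    exact mul_le_mul_of_nonneg_left hH (by linarith)
  have e2 : ∏ p ∈ P, (if p ≤ B then 2 * G0 else (1 : ℝ)) ≤ (2 * G0) ^ B := by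
    rw [← prod_filter, prod_const]
    apply pow_le_pow_right₀ (by linarith)
    have hsub : P.filter (fun p => p ≤ B) ⊆ Icc 1 B := by
      intro p hp
      rw [mem_filter] at hp
      exact mem_Icc.2 ⟨(hP p hp.1).pos, hp.2⟩
    have := card_le_card hsub
    simpa using this
  have e3 : ∏ p ∈ P, (if x p = 0 then (1 : ℝ) else 1 / Real.sqrt p) = 1 / Real.sqrt (qx P x : ℕ) := by
    have : ∏ p ∈ P, (if x p = 0 then (1 : ℝ) else 1 / Real.sqrt p) =
        ∏ p ∈ P.filter (fun p => x p ≠ 0), 1 / Real.sqrt p := by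
      rw [prod_filter]
      apply prod_congr rfl
      intro p _
      by_cases h : x p = 0 <;> simp [h]
    rw [this]
    unfold qx
    push_cast
    have hs : ∀ S : Finset ℕ, ∏ p ∈ S, 1 / Real.sqrt p = 1 / Real.sqrt (∏ p ∈ S, (p : ℝ)) := by
      intro S
      classical
      induction S using Finset.induction_on with
      | empty => simp
      | insert a S ha ih =>
        rw [prod_insert ha, prod_insert ha, ih, Real.sqrt_mul (Nat.cast_nonneg a)]
        rw [one_div_mul_one_div]
    exact hs _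
  rw [e3]
  have e4 : 0 ≤ ∏ p ∈ P, (if p ≤ B then 2 * G0 else (1 : ℝ)) := prod_nonneg fun p _ => by
    split_ifs <;> linarith
  calc (∏ p ∈ P, Real.exp ((g + G0) * (1 / p))) * (∏ p ∈ P, (if p ≤ B then 2 * G0 else (1 : ℝ))) *
      (1 / Real.sqrt (qx P x : ℕ)) ≤
      (Real.exp ((g + G0) * H) * (2 * G0) ^ B) * (1 / Real.sqrt (qx P x : ℕ)) := by
        apply mul_le_mul_of_nonneg_right _ (by positivity)
        exact mul_le_mul e1 e2 e4 (Real.exp_pos _).le
    _ = _ := by ring


lemma prodJ_le : ∏ p ∈ P, Jf g T x p ≤ ∏ p ∈ P, ((1 + (if x p = 0 then g / p else 1)) * Jf g T x p) := by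
  apply Finset.prod_le_prod
  · intro p hp
    exact J_nn P hP T g hg hT x p hp
  · intro p hp
    have h1 := J_nn P hP T g hg hT x p hp
    have h2 : (0 : ℝ) ≤ (if x p = 0 then g / p else 1) := by
      have h3 : (0 : ℝ) < p := by exact_mod_cast (hP p hp).pos
      split_ifs <;> positivity
    nlinarith

lemma Bf_nonneg (L : ℝ) : 0 ≤ Bf P L g T x := by
  unfold Bf
  exact BB_nonneg P (th L) _ _ _ (fun U _ => th_nonneg L U) (m0_nn P hP T g hg hT x)
    (m1_nn P hP T g hg hT x) (m2_nn P hP T g hg hT x)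

lemma Bf_le (L : ℝ) (hL : 0 < L) : Bf P L g T x ≤ ∏ p ∈ P, Jf g T x p := by
  unfold Bf
  have h := BB_le P (th L) (fun p => LC (1, 0, 0) (T p) p (x p)) (fun p => LC (0, g, -1) (T p) p (x p))
    (fun p => LC (0, g ^ 2, 1) (T p) p (x p)) 1 (fun U _ => ⟨th_nonneg L U, th_le_one L hL U⟩)
    (m0_nn P hP T g hg hT x) (m1_nn P hP T g hg hT x) (m2_nn P hP T g hg hT x)
  rw [prod_congr rfl fun p _ => Jf_eq g T x p] at h
  simpa using h

lemma Cf_abs (L : ℝ) (hL : 0 < L) :
    |Cf P L g T x| ≤ ∏ p ∈ P, ((1 + (if x p = 0 then g / p else 1)) * Jf g T x p) := by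
  have h1 := CC_abs P hP (fun p => LC (1, 0, 0) (T p) p (x p)) (fun p => LC (0, g, -1) (T p) p (x p))
    (fun p => LC (0, g ^ 2, 1) (T p) p (x p)) (fun p => LC (0, 0, 1) (T p) p (x p))
    (fun p => if x p = 0 then g / p else 1) L hL (m0_nn P hP T g hg hT x) (m1_nn P hP T g hg hT x)
    (m2_nn P hP T g hg hT x) (tau_le P hP T g hg hT x)
  have hv0 : ∀ p ∈ P, 0 ≤ (if x p = 0 then g / p else 1) := by
    intro p hp
    have h3 : (0 : ℝ) < p := by exact_mod_cast (hP p hp).pos
    split_ifs <;> positivity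
  have h2 := one_add_sum_le P (fun p => if x p = 0 then g / p else 1) hv0
  rw [prod_congr rfl fun p _ => Jf_eq g T x p] at h1
  have hJ0 : ∀ p ∈ P, 0 ≤ Jf g T x p := J_nn P hP T g hg hT x
  rw [prod_mul_distrib]
  exact h1.trans (mul_le_mul_of_nonneg_right h2 (prod_nonneg hJ0))

/-- both coefficients -/
lemma far2 (L G0 H : ℝ) (B : ℕ) (hL : 0 < L) (hG0 : G0 = g ^ 2 + 3 * g) (hB : 4 * G0 ^ 2 ≤ B)
    (hH : ∑ p ∈ P, 1 / (p : ℝ) ≤ H) :
    |Cf P L g T x| ≤ Real.exp ((g + G0) * H) * (2 * G0) ^ B / Real.sqrt (qx P x : ℕ) ∧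
    |Bf P L g T x| ≤ Real.exp ((g + G0) * H) * (2 * G0) ^ B / Real.sqrt (qx P x : ℕ) := by
  have h := farJ P hP T g hg hT x G0 H B hG0 hB hH
  refine ⟨(Cf_abs P hP T g hg hT x L hL).trans h, ?_⟩
  rw [abs_of_nonneg (Bf_nonneg P hP T g hg hT x L)]
  exact (Bf_le P hP T g hg hT x L hL).trans ((prodJ_le P hP T g hg hT x).trans h)

/-- frequencies with a small denominator: the square -/
lemma nearB (z s : ℕ) (hz : 3 ≤ z) (hPz : ∀ p ∈ P, p ≤ z) (C1 κ : ℝ)
    (hC1 : ∑ p ∈ P, Real.log p / p ≤ (1 + C1) * Real.log z)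
    (hs : 2 * (2 * (g ^ 2 + g) * (1 + C1) + κ + 3) ≤ s)
    (hq : Real.log (qx P x : ℕ) ≤ κ * Real.log z) :
    7 / 32 * ∏ p ∈ P, Jf g T x p ≤ Bf P (s * Real.log z) g T x := by
  have hz3 : (3 : ℝ) ≤ z := by exact_mod_cast hz
  have hl : 1 ≤ Real.log z := by
    rw [Real.le_log_iff_exp_le (by linarith)]
    linarith [Real.exp_one_lt_d9]
  have hl0 : 0 < Real.log z := by linarith
  have hκ0 : 0 ≤ κ * Real.log z := (Real.log_natCast_nonneg _).trans hq
  have hκ : 0 ≤ κ := by
    by_contra hc
    push Not at hc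
    nlinarith
  have hsum0 : 0 ≤ ∑ p ∈ P, Real.log p / p := sum_nonneg fun p _ =>
    div_nonneg (Real.log_natCast_nonneg _) (Nat.cast_nonneg _)
  have hC10 : 0 ≤ 1 + C1 := by
    by_contra hc
    push Not at hc
    nlinarith
  have hs0 : (0 : ℝ) < s := by
    have : 0 ≤ 2 * (g ^ 2 + g) * (1 + C1) := by positivity
    linarith
  have hL : 0 < s * Real.log z := by positivity
  have hlq : Real.log (qx P x : ℕ) = ∑ p ∈ P, if x p = 0 then 0 else Real.log p := by
    unfold qx
    push_cast
    rw [Real.log_prod (fun p hp => by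
      have := (hP p (mem_filter.1 hp).1).pos
      positivity), sum_filter]
    apply sum_congr rfl
    intro p _
    by_cases h : x p = 0 <;> simp [h]
  have hlp : ∀ p ∈ P, 0 ≤ Real.log p ∧ Real.log p ≤ Real.log z := by
    intro p hp
    refine ⟨Real.log_natCast_nonneg _, ?_⟩
    apply Real.log_le_log (by exact_mod_cast (hP p hp).pos)
    exact_mod_cast hPz p hp
  have hη : 0 ≤ 1 / Real.log z := by positivity
  have hmain := BB_lower P hP (fun p => LC (1, 0, 0) (T p) p (x p)) (fun p => LC (0, g, -1) (T p) p (x p))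
    (fun p => LC (0, g ^ 2, 1) (T p) p (x p))
    (fun p => if x p = 0 then Real.exp (2 * (g ^ 2 + g) / Real.log z * (Real.log p / p)) else
      Real.exp (1 / Real.log z * Real.log p))
    (s * Real.log z) (1 / Real.log z) hL hη (m0_nn P hP T g hg hT x) (m1_nn P hP T g hg hT x)
    (m2_nn P hP T g hg hT x) ?_ ?_
  · unfold Bf
    rw [prod_congr rfl fun p _ => Jf_eq g T x p] at hmain
    exact hmain
  · -- local inequality
    intro p hp
    obtain ⟨h1, h2⟩ := basic P hP T g hg hT x p hp
    have hm0 := m0_nn P hP T g hg hT x p hp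
    have hm1 := m1_nn P hP T g hg hT x p hp
    have hm2 := m2_nn P hP T g hg hT x p hp
    set r := Real.exp (1 / Real.log z * Real.log p) with hr
    have ht0 : 0 ≤ 1 / Real.log z * Real.log p := mul_nonneg hη (hlp p hp).1
    have ht1 : 1 / Real.log z * Real.log p ≤ 1 := by
      rw [one_div_mul_eq_div, div_le_one hl0]
      exact (hlp p hp).2
    have hr1 : 1 ≤ r := Real.one_le_exp ht0
    have hr2 := exp_sub_one_le _ ht0 ht1
    rw [← hr] at hr2
    by_cases h : x p = 0
    · simp only [if_pos h]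
      have hJ := (J_one P hP T g hg hT x p hp h).1
      rw [← Jf_eq] at hJ
      have hsum : LC (0, g, -1) (T p) p (x p) + LC (0, g ^ 2, 1) (T p) p (x p) = (g ^ 2 + g) / p := by
        rw [LC_m1, LC_m2]
        ring
      set m0 := LC (1, 0, 0) (T p) p (x p)
      set m1 := LC (0, g, -1) (T p) p (x p)
      set m2 := LC (0, g ^ 2, 1) (T p) p (x p)
      have e1 : m0 + (r + 1) * m1 + r * m2 = (m0 + 2 * m1 + m2) + (r - 1) * ((g ^ 2 + g) / p) := by
        rw [← hsum]; ring
      rw [e1]
      have e2 : (r - 1) * ((g ^ 2 + g) / p) ≤ 2 * (g ^ 2 + g) / Real.log z * (Real.log p / p) := by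
        calc (r - 1) * ((g ^ 2 + g) / p) ≤ 2 * (1 / Real.log z * Real.log p) * ((g ^ 2 + g) / p) :=
              mul_le_mul_of_nonneg_right hr2 (by positivity)
          _ = _ := by field_simp
      have e3 : 1 + 2 * (g ^ 2 + g) / Real.log z * (Real.log p / p) ≤
          Real.exp (2 * (g ^ 2 + g) / Real.log z * (Real.log p / p)) := by
        have := Real.add_one_le_exp (2 * (g ^ 2 + g) / Real.log z * (Real.log p / p))
        linarith
      have e4 : 0 ≤ (r - 1) * ((g ^ 2 + g) / p) := mul_nonneg (by linarith) (by positivity)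
      calc (m0 + 2 * m1 + m2) + (r - 1) * ((g ^ 2 + g) / p) ≤
          (1 + 2 * (g ^ 2 + g) / Real.log z * (Real.log p / p)) * (m0 + 2 * m1 + m2) := by nlinarith
        _ ≤ _ := mul_le_mul_of_nonneg_right e3 (by linarith)
    · simp only [if_neg h]
      have e0 : LC (1, 0, 0) (T p) p (x p) = 0 := by rw [LC_m0, if_neg h]
      rw [e0]
      nlinarith
  · -- tail
    have h1 : ∏ p ∈ P, (if x p = 0 then Real.exp (2 * (g ^ 2 + g) / Real.log z * (Real.log p / p)) else
        Real.exp (1 / Real.log z * Real.log p)) ≤ Real.exp (2 * (g ^ 2 + g) * (1 + C1) + κ) := by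
      have h2 : ∏ p ∈ P, (if x p = 0 then Real.exp (2 * (g ^ 2 + g) / Real.log z * (Real.log p / p)) else
          Real.exp (1 / Real.log z * Real.log p)) =
          Real.exp (∑ p ∈ P, if x p = 0 then 2 * (g ^ 2 + g) / Real.log z * (Real.log p / p) else
            1 / Real.log z * Real.log p) := by
        rw [Real.exp_sum]
        apply prod_congr rfl
        intro p _
        split_ifs <;> rfl
      rw [h2]
      apply Real.exp_le_exp.2
      calc (∑ p ∈ P, if x p = 0 then 2 * (g ^ 2 + g) / Real.log z * (Real.log p / p) else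
            1 / Real.log z * Real.log p) ≤
          ∑ p ∈ P, (2 * (g ^ 2 + g) / Real.log z * (Real.log p / p) +
            1 / Real.log z * (if x p = 0 then 0 else Real.log p)) := by
            apply sum_le_sum
            intro p hp
            have hp0 : (0 : ℝ) < p := by exact_mod_cast (hP p hp).pos
            have := (hlp p hp).1
            have e1 : 0 ≤ 2 * (g ^ 2 + g) / Real.log z * (Real.log p / p) := by positivity
            split_ifs
            · simp
            · linarith
        _ = 2 * (g ^ 2 + g) / Real.log z * ∑ p ∈ P, Real.log p / p + 1 / Real.log z * Real.log (qx P x : ℕ) := by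
            rw [sum_add_distrib, ← mul_sum, ← mul_sum, hlq]
        _ ≤ 2 * (g ^ 2 + g) / Real.log z * ((1 + C1) * Real.log z) + 1 / Real.log z * (κ * Real.log z) := by
            gcongr
        _ = _ := by field_simp
    calc Real.exp (-(1 / Real.log z * (s * Real.log z) / 2)) *
        ∏ p ∈ P, (if x p = 0 then Real.exp (2 * (g ^ 2 + g) / Real.log z * (Real.log p / p)) else
        Real.exp (1 / Real.log z * Real.log p)) ≤
        Real.exp (-(1 / Real.log z * (s * Real.log z) / 2)) * Real.exp (2 * (g ^ 2 + g) * (1 + C1) + κ) :=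
          mul_le_mul_of_nonneg_left h1 (Real.exp_pos _).le
      _ = Real.exp (-(s / 2) + (2 * (g ^ 2 + g) * (1 + C1) + κ)) := by
          rw [← Real.exp_add]
          congr 2
          field_simp
      _ ≤ Real.exp (-3) := by
          apply Real.exp_le_exp.2
          linarith
      _ ≤ 1 / 16 := by
          rw [Real.exp_neg, one_div]
          apply inv_anti₀ (by norm_num)
          have h3 : (2.7 : ℝ) ^ 3 ≤ Real.exp 1 ^ 3 := by
            apply pow_le_pow_left₀ (by norm_num)
            linarith [Real.exp_one_gt_d9]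
          have h4 : Real.exp 3 = Real.exp 1 ^ 3 := by
            rw [← Real.exp_nat_mul]
            norm_num
          rw [h4]
          refine le_trans ?_ h3
          norm_num

/-- frequencies with a small denominator: the subtracted terms -/
lemma nearC (z s : ℕ) (hz : 3 ≤ z) (hPz : ∀ p ∈ P, p ≤ z) (C1 κ ε : ℝ)
    (hC1 : ∑ p ∈ P, Real.log p / p ≤ (1 + C1) * Real.log z)
    (hs : 2 * (2 * (g ^ 2 + g) * (1 + C1) + κ + 3) ≤ s) (hs2 : (g * (1 + C1) + κ) / (s : ℝ) ^ 2 ≤ ε)
    (hq : Real.log (qx P x : ℕ) ≤ κ * Real.log z) :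
    Bf P (s * Real.log z) g T x - ε * ∏ p ∈ P, Jf g T x p ≤ Cf P (s * Real.log z) g T x := by
  have hz3 : (3 : ℝ) ≤ z := by exact_mod_cast hz
  have hl : 1 ≤ Real.log z := by
    rw [Real.le_log_iff_exp_le (by linarith)]
    linarith [Real.exp_one_lt_d9]
  have hl0 : 0 < Real.log z := by linarith
  have hκ0 : 0 ≤ κ * Real.log z := (Real.log_natCast_nonneg _).trans hq
  have hκ : 0 ≤ κ := by
    by_contra hc
    push Not at hc
    nlinarith
  have hsum0 : 0 ≤ ∑ p ∈ P, Real.log p / p := sum_nonneg fun p _ =>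
    div_nonneg (Real.log_natCast_nonneg _) (Nat.cast_nonneg _)
  have hC10 : 0 ≤ 1 + C1 := by
    by_contra hc
    push Not at hc
    nlinarith
  have hs0 : (0 : ℝ) < s := by
    have : 0 ≤ 2 * (g ^ 2 + g) * (1 + C1) := by positivity
    linarith
  have hL : 0 < s * Real.log z := by positivity
  have hlq : Real.log (qx P x : ℕ) = ∑ p ∈ P, if x p = 0 then 0 else Real.log p := by
    unfold qx
    push_cast
    rw [Real.log_prod (fun p hp => by
      have := (hP p (mem_filter.1 hp).1).pos
      positivity), sum_filter]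
    apply sum_congr rfl
    intro p _
    by_cases h : x p = 0 <;> simp [h]
  have hlp : ∀ p ∈ P, 0 ≤ Real.log p ∧ Real.log p ≤ Real.log z := by
    intro p hp
    refine ⟨Real.log_natCast_nonneg _, ?_⟩
    apply Real.log_le_log (by exact_mod_cast (hP p hp).pos)
    exact_mod_cast hPz p hp
  have hη : 0 ≤ 1 / Real.log z := by positivity
  have hG0 : 0 ≤ ∏ p ∈ P, Jf g T x p := prod_nonneg (J_nn P hP T g hg hT x)
  have hsum : ∑ q ∈ P, LC (0, 0, 1) (T q) q (x q) * BB (P.erase q)
      (fun U => th (s * Real.log z) U - th (s * Real.log z) (insert q U))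
      (fun p => LC (1, 0, 0) (T p) p (x p)) (fun p => LC (0, g, -1) (T p) p (x p))
      (fun p => LC (0, g ^ 2, 1) (T p) p (x p)) ≤ ε * ∏ p ∈ P, Jf g T x p := by
    calc _ ≤ ∑ q ∈ P, (Real.log q / (s * Real.log z)) ^ 2 * (if x q = 0 then g / q else 1) *
          ∏ p ∈ P, Jf g T x p := by
          apply sum_le_sum
          intro q hq'
          have h := (le_abs_self _).trans (sub_term P hP (s * Real.log z) (Real.log q / (s * Real.log z)) hL
            (fun p => LC (0, 0, 1) (T p) p (x p)) (fun p => LC (1, 0, 0) (T p) p (x p))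
            (fun p => LC (0, g, -1) (T p) p (x p)) (fun p => LC (0, g ^ 2, 1) (T p) p (x p))
            (m0_nn P hP T g hg hT x) (m1_nn P hP T g hg hT x) (m2_nn P hP T g hg hT x) q hq' (Or.inl le_rfl)
            (if x q = 0 then g / q else 1) (tau_le P hP T g hg hT x q hq'))
          rw [prod_congr rfl fun p _ => Jf_eq g T x p] at h
          exact h
      _ = (∑ q ∈ P, (Real.log q / (s * Real.log z)) ^ 2 * (if x q = 0 then g / q else 1)) *
          ∏ p ∈ P, Jf g T x p := by rw [sum_mul]
      _ ≤ _ := by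
          apply mul_le_mul_of_nonneg_right _ hG0
          refine le_trans ?_ hs2
          have h1 : ∀ p ∈ P, (Real.log p / (s * Real.log z)) ^ 2 * (if x p = 0 then g / p else 1) ≤
              g / ((s : ℝ) ^ 2 * Real.log z) * (Real.log p / p) +
                1 / ((s : ℝ) ^ 2 * Real.log z) * (if x p = 0 then 0 else Real.log p) := by
            intro p hp
            have hp0 : (0 : ℝ) < p := by exact_mod_cast (hP p hp).pos
            obtain ⟨hl1, hl2⟩ := hlp p hp
            have hb : (Real.log p / (s * Real.log z)) ^ 2 ≤ 1 / ((s : ℝ) ^ 2 * Real.log z) * Real.log p := by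
              rw [div_pow, mul_pow, div_mul_eq_mul_div, one_mul, div_le_div_iff₀ (by positivity) (by positivity)]
              have : Real.log p * Real.log p ≤ Real.log p * Real.log z := by gcongr
              have hpos : 0 ≤ (s : ℝ) ^ 2 * Real.log z := by positivity
              nlinarith
            split_ifs with h
            · rw [mul_zero, add_zero]
              calc (Real.log p / (s * Real.log z)) ^ 2 * (g / p) ≤
                  1 / ((s : ℝ) ^ 2 * Real.log z) * Real.log p * (g / p) :=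
                    mul_le_mul_of_nonneg_right hb (by positivity)
                _ = _ := by field_simp
            · rw [mul_one]
              have : 0 ≤ g / ((s : ℝ) ^ 2 * Real.log z) * (Real.log p / p) := by positivity
              linarith
          refine (sum_le_sum h1).trans ?_
          rw [sum_add_distrib, ← mul_sum, ← mul_sum, ← hlq]
          calc g / ((s : ℝ) ^ 2 * Real.log z) * ∑ p ∈ P, Real.log p / p +
              1 / ((s : ℝ) ^ 2 * Real.log z) * Real.log (qx P x : ℕ) ≤
              g / ((s : ℝ) ^ 2 * Real.log z) * ((1 + C1) * Real.log z) +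
              1 / ((s : ℝ) ^ 2 * Real.log z) * (κ * Real.log z) := by gcongr
            _ = (g * (1 + C1) + κ) / (s : ℝ) ^ 2 := by field_simp
  have e0 : Cf P (s * Real.log z) g T x = Bf P (s * Real.log z) g T x - ∑ q ∈ P, LC (0, 0, 1) (T q) q (x q) *
      BB (P.erase q) (fun U => th (s * Real.log z) U - th (s * Real.log z) (insert q U))
      (fun p => LC (1, 0, 0) (T p) p (x p)) (fun p => LC (0, g, -1) (T p) p (x p))
      (fun p => LC (0, g ^ 2, 1) (T p) p (x p)) := rfl
  rw [e0]
  linarith

end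

end Pool.Agent.H13.P3
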