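import Pool.Agent.H14.VC.Main

/-!
# The pair sums of the weight times sieve weights of large primes: the Fourier identity (helper13, for helper16's P3)
-/

set_option autoImplicit false

namespace Pool.Agent.H13.P3

open Finset
open Pool.Agent.H14.VC
open Pool.Agent.Helper112 (ee ls_ee_zero ls_ee_add ls_ee_int lsSep)

/-- the local functions of a set of large primes -/
noncomputable def cw (W : Finset ℕ) (p : ℕ) : ℝ × ℝ × ℝ := if p ∈ W then (0, 0, 1) else (1, 0, 0)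

/-- the Fourier coefficient of a set of large primes -/
noncomputable def KW (T : ℕ → ℤ → Prop) (Q W : Finset ℕ) (x : ℕ → ℕ) : ℝ :=
  ∏ p ∈ Q, LC (cw W p) (T p) p (x p)

open Classical in
/-- the indicator of a set of large primes -/
noncomputable def iW (T : ℕ → ℤ → Prop) (W : Finset ℕ) (n : ℤ) : ℝ := ∏ p ∈ W, (if T p n then (1 : ℝ) else 0)

lemma iW_eq (T : ℕ → ℤ → Prop) (Q W : Finset ℕ) (hW : W ⊆ Q) (n : ℤ) :
    iW T W n = ∏ p ∈ Q, ev (cw W p) (T p) p n := by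
  classical
  unfold iW
  rw [← prod_if Q W hW]
  apply prod_congr rfl
  intro p _
  unfold cw ev
  by_cases h : p ∈ W
  · simp [h]
  · simp [h]

section
variable (A P Q : Finset ℕ) (T : ℕ → ℤ → Prop) (X : Finset (ℕ → ℕ)) (W : Finset ℕ)

/-- `f` has the Fourier coefficients `fh` on `P` -/
def Ex (f : ℤ → ℝ) (fh : (ℕ → ℕ) → ℝ) : Prop :=
  PS A (fun n => f n * iW T W n) = ∑ x ∈ X, fh x * (KW T Q W x * En A (P ∪ Q) x)

lemma Ex.smul {f : ℤ → ℝ} {fh : (ℕ → ℕ) → ℝ} (c : ℝ) (h : Ex A P Q T X W f fh) :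
    Ex A P Q T X W (fun n => c * f n) (fun x => c * fh x) := by
  unfold Ex at h ⊢
  have e : (fun n => c * f n * iW T W n) = fun n => c * (f n * iW T W n) := by
    funext n; ring
  rw [e, PS_mul, h, mul_sum]
  apply sum_congr rfl
  intro x _
  ring

lemma Ex.sub {f f' : ℤ → ℝ} {fh fh' : (ℕ → ℕ) → ℝ} (h : Ex A P Q T X W f fh) (h' : Ex A P Q T X W f' fh') :
    Ex A P Q T X W (fun n => f n - f' n) (fun x => fh x - fh' x) := by
  unfold Ex at h h' ⊢
  have e : (fun n => (f n - f' n) * iW T W n) = fun n => f n * iW T W n - f' n * iW T W n := by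
    funext n; ring
  rw [e, PS_sub, h, h', ← sum_sub_distrib]
  apply sum_congr rfl
  intro x _
  ring

lemma Ex.sum {ι : Type*} (s : Finset ι) {f : ι → ℤ → ℝ} {fh : ι → (ℕ → ℕ) → ℝ}
    (h : ∀ i ∈ s, Ex A P Q T X W (f i) (fh i)) :
    Ex A P Q T X W (fun n => ∑ i ∈ s, f i n) (fun x => ∑ i ∈ s, fh i x) := by
  unfold Ex at h ⊢
  have e : (fun n => (∑ i ∈ s, f i n) * iW T W n) = fun n => ∑ i ∈ s, f i n * iW T W n := by
    funext n; rw [sum_mul]
  rw [e, PS_sum, sum_congr rfl h, sum_comm]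
  apply sum_congr rfl
  intro x _
  rw [sum_mul]

lemma Ex.prod (hP : ∀ p ∈ P, p.Prime) (hQ : ∀ p ∈ Q, p.Prime) (hPQ : Disjoint P Q)
    (per : ∀ p : ℕ, ∀ n m : ℤ, (p : ℤ) ∣ n - m → (T p n ↔ T p m)) (even : ∀ p : ℕ, ∀ n : ℤ, T p n ↔ T p (-n))
    (hX : ∀ f : ℕ → ℕ → ℂ, ∏ p ∈ P ∪ Q, ∑ j ∈ range p, f p j = ∑ x ∈ X, ∏ p ∈ P ∪ Q, f p (x p))
    (hW : W ⊆ Q) (c : ℕ → ℝ × ℝ × ℝ) :
    Ex A P Q T X W (fun n => ∏ p ∈ P, ev (c p) (T p) p n) (fun x => ∏ p ∈ P, LC (c p) (T p) p (x p)) := by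
  classical
  have hPR : ∀ p ∈ P ∪ Q, p.Prime := fun p hp => (mem_union.1 hp).elim (hP p) (hQ p)
  have h := prod_ev_pairs A (P ∪ Q) hPR T per even X hX (fun p => if p ∈ P then c p else cw W p)
  unfold Ex
  have hQn : ∀ p ∈ Q, p ∉ P := fun p hp hp' => (disjoint_left.1 hPQ) hp' hp
  have e1 : ∀ n : ℤ, ∏ p ∈ P ∪ Q, ev (if p ∈ P then c p else cw W p) (T p) p n =
      (∏ p ∈ P, ev (c p) (T p) p n) * iW T W n := by
    intro n
    rw [prod_union hPQ, iW_eq T Q W hW]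
    congr 1
    · apply prod_congr rfl
      intro p hp
      rw [if_pos hp]
    · apply prod_congr rfl
      intro p hp
      rw [if_neg (hQn p hp)]
  have e2 : ∀ x : ℕ → ℕ, ∏ p ∈ P ∪ Q, LC (if p ∈ P then c p else cw W p) (T p) p (x p) =
      (∏ p ∈ P, LC (c p) (T p) p (x p)) * KW T Q W x := by
    intro x
    unfold KW
    rw [prod_union hPQ]
    congr 1
    · apply prod_congr rfl
      intro p hp
      rw [if_pos hp]
    · apply prod_congr rfl
      intro p hp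
      rw [if_neg (hQn p hp)]
  unfold PS
  beta_reduce
  have e3 : ∑ a ∈ A, ∑ b ∈ A, (∏ p ∈ P, ev (c p) (T p) p ((b : ℤ) - a)) * iW T W ((b : ℤ) - a) =
      ∑ a ∈ A, ∑ b ∈ A, ∏ p ∈ P ∪ Q, ev (if p ∈ P then c p else cw W p) (T p) p ((b : ℤ) - a) :=
    sum_congr rfl fun a _ => sum_congr rfl fun b _ => (e1 _).symm
  rw [e3, h]
  apply sum_congr rfl
  intro x _
  rw [e2]
  ring

/-- the coefficient of the square -/
noncomputable def Bf (P : Finset ℕ) (L g : ℝ) (T : ℕ → ℤ → Prop) (x : ℕ → ℕ) : ℝ :=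
  BB P (th L) (fun p => LC (1, 0, 0) (T p) p (x p)) (fun p => LC (0, g, -1) (T p) p (x p))
        (fun p => LC (0, g ^ 2, 1) (T p) p (x p))

variable (hP : ∀ p ∈ P, p.Prime) (hQ : ∀ p ∈ Q, p.Prime) (hPQ : Disjoint P Q)
    (per : ∀ p : ℕ, ∀ n m : ℤ, (p : ℤ) ∣ n - m → (T p n ↔ T p m)) (even : ∀ p : ℕ, ∀ n : ℤ, T p n ↔ T p (-n))
    (h0 : ∀ p ∈ P, ¬ T p 0)
    (hX : ∀ f : ℕ → ℕ → ℂ, ∏ p ∈ P ∪ Q, ∑ j ∈ range p, f p j = ∑ x ∈ X, ∏ p ∈ P ∪ Q, f p (x p))
    (hW : W ⊆ Q)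

include hP hQ hPQ per even h0 hX hW

lemma Ex_sq (L g : ℝ) : Ex A P Q T X W (fun n => Lam P L g T n ^ 2) (Bf P L g T) := by
  classical
  have hd : ∀ n : ℤ, ∀ p ∈ P, ¬ ((p : ℤ) ∣ n ∧ T p n) := by
    rintro n p hp ⟨h1, h2⟩
    exact h0 p hp ((per p n 0 (by simpa using h1)).1 h2)
  have h1 : (fun n => Lam P L g T n ^ 2) = fun n => ∑ U ∈ P.powerset, ∑ V ∈ P.powerset, th L U * th L V *
        ∏ p ∈ P, ev (cc g U V p) (T p) p n := by
    funext n
    unfold Lam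
    rw [sq, sum_mul_sum]
    apply sum_congr rfl
    intro U hU
    apply sum_congr rfl
    intro V hV
    rw [prod_cc P g T n (hd n) U V (mem_powerset.1 hU) (mem_powerset.1 hV)]
    ring
  have h2 : Bf P L g T = fun x => ∑ U ∈ P.powerset, ∑ V ∈ P.powerset, th L U * th L V *
        ∏ p ∈ P, LC (cc g U V p) (T p) p (x p) := by
    funext x
    unfold Bf BB
    apply sum_congr rfl
    intro U _
    apply sum_congr rfl
    intro V _
    congr 1
    apply prod_congr rfl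
    intro p _
    rw [mm_LC]
  rw [h1, h2]
  apply Ex.sum
  intro U _
  apply Ex.sum
  intro V _
  apply Ex.smul
  exact Ex.prod A P Q T X W hP hQ hPQ per even hX hW _

lemma Ex_wt (L g : ℝ) : Ex A P Q T X W (wt P L g T) (Cf P L g T) := by
  classical
  have hd : ∀ n : ℤ, ∀ p ∈ P, ¬ ((p : ℤ) ∣ n ∧ T p n) := by
    rintro n p hp ⟨h1, h2⟩
    exact h0 p hp ((per p n 0 (by simpa using h1)).1 h2)
  have h1 : wt P L g T = fun n => (∑ U ∈ P.powerset, ∑ V ∈ P.powerset, th L U * th L V *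
        ∏ p ∈ P, ev (cc g U V p) (T p) p n) -
      ∑ q ∈ P, ∑ U ∈ (P.erase q).powerset, ∑ V ∈ (P.erase q).powerset,
        (th L U - th L (insert q U)) * (th L V - th L (insert q V)) *
        ∏ p ∈ P, ev (if p = q then (0, 0, 1) else cc g U V p) (T p) p n := by
    funext n
    exact wt_id P L g T n (hd n)
  have h2 : Cf P L g T = fun x => (∑ U ∈ P.powerset, ∑ V ∈ P.powerset, th L U * th L V *
        ∏ p ∈ P, LC (cc g U V p) (T p) p (x p)) -
      ∑ q ∈ P, ∑ U ∈ (P.erase q).powerset, ∑ V ∈ (P.erase q).powerset,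
        (th L U - th L (insert q U)) * (th L V - th L (insert q V)) *
        ∏ p ∈ P, LC (if p = q then (0, 0, 1) else cc g U V p) (T p) p (x p) := by
    funext x
    unfold Cf CC BB
    congr 1
    · apply sum_congr rfl
      intro U _
      apply sum_congr rfl
      intro V _
      congr 1
      apply prod_congr rfl
      intro p _
      rw [mm_LC]
    · apply sum_congr rfl
      intro q hq
      rw [mul_sum]
      apply sum_congr rfl
      intro U _
      rw [mul_sum]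
      apply sum_congr rfl
      intro V _
      rw [← mul_prod_erase P (fun p => LC (if p = q then ((0, 0, 1) : ℝ × ℝ × ℝ) else cc g U V p) (T p) p (x p)) hq,
          if_pos rfl]
      have e : ∏ p ∈ P.erase q, LC (if p = q then ((0, 0, 1) : ℝ × ℝ × ℝ) else cc g U V p) (T p) p (x p) =
          ∏ p ∈ P.erase q, mm (fun p => LC (1, 0, 0) (T p) p (x p)) (fun p => LC (0, g, -1) (T p) p (x p))
          (fun p => LC (0, g ^ 2, 1) (T p) p (x p)) U V p := by
        apply prod_congr rfl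
        intro p hp
        rw [if_neg (ne_of_mem_erase hp), mm_LC]
      rw [e]
      ring
  rw [h1, h2]
  apply Ex.sub
  · apply Ex.sum
    intro U _
    apply Ex.sum
    intro V _
    apply Ex.smul
    exact Ex.prod A P Q T X W hP hQ hPQ per even hX hW _
  · apply Ex.sum
    intro q _
    apply Ex.sum
    intro U _
    apply Ex.sum
    intro V _
    apply Ex.smul
    exact Ex.prod A P Q T X W hP hQ hPQ per even hX hW _

end

/-- the coefficient of a sieve weight -/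
noncomputable def mu (T : ℕ → ℤ → Prop) (Q : Finset ℕ) (l : Finset ℕ → ℝ) (x : ℕ → ℕ) : ℝ :=
  ∑ W ∈ Q.powerset, l W * KW T Q W x

open Classical in
theorem ident (A P Q : Finset ℕ) (T : ℕ → ℤ → Prop) (X : Finset (ℕ → ℕ)) (hP : ∀ p ∈ P, p.Prime)
    (hQ : ∀ p ∈ Q, p.Prime) (hPQ : Disjoint P Q)
    (per : ∀ p : ℕ, ∀ n m : ℤ, (p : ℤ) ∣ n - m → (T p n ↔ T p m)) (even : ∀ p : ℕ, ∀ n : ℤ, T p n ↔ T p (-n))
    (h0 : ∀ p ∈ P, ¬ T p 0)
    (hX : ∀ f : ℕ → ℕ → ℂ, ∏ p ∈ P ∪ Q, ∑ j ∈ range p, f p j = ∑ x ∈ X, ∏ p ∈ P ∪ Q, f p (x p))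
    (L g : ℝ) (l1 l2 : Finset ℕ → ℝ) :
    PS A (fun n => Lam P L g T n ^ 2 * ((1 - ∑ q ∈ P, (if T q n then (1 : ℝ) else 0)) *
        (∑ U ∈ Q.powerset, l1 U * ∏ p ∈ U, (if T p n then (1 : ℝ) else 0)) -
        (∑ U ∈ Q.powerset, l2 U * ∏ p ∈ U, (if T p n then (1 : ℝ) else 0)))) =
      ∑ x ∈ X, (Cf P L g T x * mu T Q l1 x - Bf P L g T x * mu T Q l2 x) * En A (P ∪ Q) x := by
  have e1 : (fun n => Lam P L g T n ^ 2 * ((1 - ∑ q ∈ P, (if T q n then (1 : ℝ) else 0)) *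
        (∑ U ∈ Q.powerset, l1 U * ∏ p ∈ U, (if T p n then (1 : ℝ) else 0)) -
        (∑ U ∈ Q.powerset, l2 U * ∏ p ∈ U, (if T p n then (1 : ℝ) else 0)))) =
      fun n => (∑ W ∈ Q.powerset, l1 W * (wt P L g T n * iW T W n)) -
        ∑ W ∈ Q.powerset, l2 W * (Lam P L g T n ^ 2 * iW T W n) := by
    funext n
    unfold wt iW
    rw [mul_sub, ← mul_assoc, mul_sum, mul_sum]
    congr 1
    · apply sum_congr rfl
      intro W _
      ring
    · apply sum_congr rfl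
      intro W _
      ring
  rw [e1, PS_sub, PS_sum, PS_sum]
  have e2 : ∀ W ∈ Q.powerset, PS A (fun n => l1 W * (wt P L g T n * iW T W n)) =
      ∑ x ∈ X, l1 W * (Cf P L g T x * (KW T Q W x * En A (P ∪ Q) x)) := by
    intro W hW
    have h := Ex_wt A P Q T X W hP hQ hPQ per even h0 hX (mem_powerset.1 hW) L g
    unfold Ex at h
    rw [PS_mul, h, mul_sum]
  have e3 : ∀ W ∈ Q.powerset, PS A (fun n => l2 W * (Lam P L g T n ^ 2 * iW T W n)) =
      ∑ x ∈ X, l2 W * (Bf P L g T x * (KW T Q W x * En A (P ∪ Q) x)) := by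
    intro W hW
    have h := Ex_sq A P Q T X W hP hQ hPQ per even h0 hX (mem_powerset.1 hW) L g
    unfold Ex at h
    rw [PS_mul, h, mul_sum]
  rw [sum_congr rfl e2, sum_congr rfl e3, sum_comm, sum_comm (s := Q.powerset), ← sum_sub_distrib]
  apply sum_congr rfl
  intro x _
  unfold mu
  rw [sub_mul, mul_sum, mul_sum, sum_mul, sum_mul]
  congr 1
  · apply sum_congr rfl
    intro W _
    ring
  · apply sum_congr rfl
    intro W _
    ring

end Pool.Agent.H13.P3
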