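import Pool.Agent.H13.P3.Clique
import Pool.Graph.R_seed8.Helper256.KM.Mertens

/-!
# From weighted sums over pairs to the number of pairs and of cliques (helper13, for helper16's P4)
-/

set_option autoImplicit false

namespace Pool.Agent.H13.P3

open Finset

open Classical in
/-- a power of the number of prime factors, as a product over all primes up to `N` -/
lemma pow_omega_eq (K : ℝ) (N n : ℕ) (hn : n ∈ Ioc 0 N) :
    K ^ n.primeFactors.card = ∏ p ∈ (Icc 1 N).filter Nat.Prime, (1 + if p ∣ n then (K - 1) else 0) := by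
  rw [mem_Ioc] at hn
  have h1 : ∀ p ∈ (Icc 1 N).filter Nat.Prime, (1 + if p ∣ n then (K - 1) else 0) = if p ∣ n then K else 1 := by
    intro p _
    split_ifs <;> ring
  rw [prod_congr rfl h1, prod_ite, prod_const_one, mul_one, prod_const]
  congr 2
  ext p
  rw [mem_filter, mem_filter, mem_Icc, Nat.mem_primeFactors]
  constructor
  · rintro ⟨h2, h3, h4⟩
    exact ⟨⟨⟨h2.one_lt.le, (Nat.le_of_dvd hn.1 h3).trans hn.2⟩, h2⟩, h3⟩
  · rintro ⟨⟨_, h2⟩, h3⟩
    exact ⟨h2, h3, by omega⟩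

open Classical in
/-- moments of the number of prime factors -/
lemma sum_pow_omega (K : ℝ) (hK : 1 ≤ K) (N : ℕ) :
    ∑ n ∈ Ioc 0 N, K ^ n.primeFactors.card ≤
      N * ∏ p ∈ (Icc 1 N).filter Nat.Prime, (1 + (K - 1) / p) := by
  set Q := (Icc 1 N).filter Nat.Prime with hQ
  have hK0 : 0 ≤ K - 1 := by linarith
  rw [sum_congr rfl (fun n hn => pow_omega_eq K N n hn)]
  simp only [prod_one_add]
  rw [sum_comm, mul_sum]
  apply sum_le_sum
  intro S hS
  have hSP : ∀ p ∈ S, p.Prime := fun p hp => (mem_filter.1 (mem_powerset.1 hS hp)).2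
  have h1 : ∀ n ∈ Ioc 0 N, (∏ p ∈ S, if p ∣ n then (K - 1) else 0) = if (∏ p ∈ S, p) ∣ n then (K - 1) ^ S.card else 0 := by
    intro n _
    by_cases h : (∏ p ∈ S, p) ∣ n
    · rw [if_pos h, ← prod_const]
      apply prod_congr rfl
      intro p hp
      rw [if_pos ((dvd_prod_of_mem _ hp).trans h)]
    · rw [if_neg h]
      have : ∃ p ∈ S, ¬ p ∣ n := by
        by_contra hc
        push Not at hc
        exact h (Finset.prod_primes_dvd n (fun p hp => (hSP p hp).prime) hc)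
      obtain ⟨p, hp, hpn⟩ := this
      exact prod_eq_zero hp (if_neg hpn)
  rw [sum_congr rfl h1, ← sum_filter, sum_const, Nat.Ioc_filter_dvd_card_eq_div, nsmul_eq_mul, prod_div_distrib, prod_const]
  have hpos : (0 : ℝ) < ∏ p ∈ S, (p : ℝ) := prod_pos fun p hp => by exact_mod_cast (hSP p hp).pos
  have h2 : ((N / (∏ p ∈ S, p) : ℕ) : ℝ) ≤ N / ∏ p ∈ S, (p : ℝ) := by
    have := @Nat.cast_div_le ℝ _ _ _ N (∏ p ∈ S, p)
    push_cast at this ⊢
    exact this
  calc ((N / (∏ p ∈ S, p) : ℕ) : ℝ) * (K - 1) ^ S.card ≤ (N / ∏ p ∈ S, (p : ℝ)) * (K - 1) ^ S.card :=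
        mul_le_mul_of_nonneg_right h2 (by positivity)
    _ = N * ((K - 1) ^ S.card / ∏ p ∈ S, (p : ℝ)) := by ring

/-- moments of the number of prime factors, final form -/
lemma sum_pow_omega_log (K : ℝ) (hK : 1 ≤ K) : ∃ D : ℝ, 0 < D ∧ ∀ N : ℕ, 3 ≤ N →
    ∑ n ∈ Ioc 0 N, K ^ n.primeFactors.card ≤ D * N * Real.log N ^ K := by
  obtain ⟨C, hC⟩ := Pool.Agent.Helper256.KM.Mert.mertens_inv
  have hC0 : 0 ≤ C := (abs_nonneg _).trans (hC 3 le_rfl)
  refine ⟨Real.exp (K * C), Real.exp_pos _, fun N hN => ?_⟩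
  have hN3 : (3 : ℝ) ≤ N := by exact_mod_cast hN
  have hl : 1 ≤ Real.log N := by
    rw [Real.le_log_iff_exp_le (by linarith)]
    linarith [Real.exp_one_lt_d9]
  have hl0 : 0 < Real.log N := by linarith
  refine (sum_pow_omega K hK N).trans ?_
  have h1 : ∏ p ∈ (Icc 1 N).filter Nat.Prime, (1 + (K - 1) / p) ≤
      Real.exp (∑ p ∈ (Icc 1 N).filter Nat.Prime, (K - 1) / p) := by
    rw [Real.exp_sum]
    apply prod_le_prod
    · intro p _
      have : 0 ≤ (K - 1) / p := div_nonneg (by linarith) (Nat.cast_nonneg _)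
      linarith
    · intro p _
      rw [add_comm]
      exact Real.add_one_le_exp _
  have h2 : ∑ p ∈ (Icc 1 N).filter Nat.Prime, (K - 1) / p ≤ K * C + K * Real.log (Real.log N) := by
    have h3 : ∑ p ∈ (Icc 1 N).filter Nat.Prime, (K - 1) / (p : ℝ) =
        (K - 1) * ∑ p ∈ (Icc 1 N).filter Nat.Prime, (1 : ℝ) / p := by
      rw [mul_sum]
      apply sum_congr rfl
      intro p _
      ring
    have h4 := (abs_le.1 (hC N hN)).2
    have h5 : ∑ p ∈ (Icc 1 N).filter Nat.Prime, (1 : ℝ) / p ≤ C + Real.log (Real.log N) := by linarith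
    have h6 : 0 ≤ C + Real.log (Real.log N) := add_nonneg hC0 (Real.log_nonneg hl)
    rw [h3]
    calc (K - 1) * ∑ p ∈ (Icc 1 N).filter Nat.Prime, (1 : ℝ) / p ≤ (K - 1) * (C + Real.log (Real.log N)) :=
          mul_le_mul_of_nonneg_left h5 (by linarith)
      _ ≤ K * (C + Real.log (Real.log N)) := mul_le_mul_of_nonneg_right (by linarith) h6
      _ = _ := by ring
  calc (N : ℝ) * ∏ p ∈ (Icc 1 N).filter Nat.Prime, (1 + (K - 1) / p) ≤
      N * Real.exp (K * C + K * Real.log (Real.log N)) := by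
        apply mul_le_mul_of_nonneg_left _ (Nat.cast_nonneg _)
        exact h1.trans (Real.exp_le_exp.2 h2)
    _ = Real.exp (K * C) * N * Real.log N ^ K := by
        rw [Real.exp_add, Real.rpow_def_of_pos hl0, mul_comm (Real.log (Real.log N))]
        ring

open Classical in
/-- the weights of pairs, with a power mean -/
lemma pairs_power (G : ℕ → ℤ → Prop) (n N : ℕ) (u : ℕ) (A : Finset ℕ) (hA : A ⊆ Ioc u (u + N)) :
    (∑ x ∈ (A ×ˢ A).filter (fun x : ℕ × ℕ => x.1 < x.2 ∧ G N ((x.2 : ℤ) - x.1)),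
      (9 : ℝ) ^ ((x.2 - x.1).primeFactors.card)) ^ (n + 1) ≤
    (((A ×ˢ A).filter (fun x : ℕ × ℕ => x.1 < x.2 ∧ G N ((x.2 : ℤ) - x.1))).card : ℝ) ^ n *
      (A.card * ∑ h ∈ Ioc 0 N, ((9 : ℝ) ^ (n + 1)) ^ h.primeFactors.card) := by
  set S := (A ×ˢ A).filter (fun x : ℕ × ℕ => x.1 < x.2 ∧ G N ((x.2 : ℤ) - x.1)) with hS
  rcases S.eq_empty_or_nonempty with he | hne
  · rw [he]
    rw [sum_empty, zero_pow (Nat.succ_ne_zero n)]
    positivity
  have hc : (0 : ℝ) < S.card := by exact_mod_cast hne.card_pos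
  have h1 := pow_sum_div_card_le_sum_pow (s := S) (f := fun x : ℕ × ℕ => (9 : ℝ) ^ ((x.2 - x.1).primeFactors.card))
    (fun x _ => by positivity) n
  rw [div_le_iff₀ (by positivity)] at h1
  refine h1.trans ?_
  rw [mul_comm]
  apply mul_le_mul_of_nonneg_left _ (by positivity)
  have h2 : ∑ x ∈ S, ((9 : ℝ) ^ ((x.2 - x.1).primeFactors.card)) ^ (n + 1) ≤
      ∑ x ∈ A ×ˢ Ioc 0 N, ((9 : ℝ) ^ (n + 1)) ^ x.2.primeFactors.card := by
    have h3 : ∑ x ∈ S, ((9 : ℝ) ^ ((x.2 - x.1).primeFactors.card)) ^ (n + 1) =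
        ∑ x ∈ S.image (fun x : ℕ × ℕ => (x.1, x.2 - x.1)), ((9 : ℝ) ^ (n + 1)) ^ x.2.primeFactors.card := by
      rw [sum_image]
      · apply sum_congr rfl
        intro x _
        simp only
        rw [← pow_mul, ← pow_mul, mul_comm]
      · rintro ⟨a, b⟩ hx ⟨a', b'⟩ hx' h
        rw [mem_coe, hS, mem_filter] at hx hx'
        simp only [Prod.mk.injEq] at h hx hx' ⊢
        omega
    rw [h3]
    apply sum_le_sum_of_subset_of_nonneg
    · intro y hy
      obtain ⟨x, hx, rfl⟩ := mem_image.1 hy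
      rw [hS, mem_filter, mem_product] at hx
      obtain ⟨⟨ha, hb⟩, hab, _⟩ := hx
      have ha' := mem_Ioc.1 (hA ha)
      have hb' := mem_Ioc.1 (hA hb)
      rw [mem_product, mem_Ioc]
      refine ⟨ha, ?_⟩
      simp only
      omega
    · intro x _ _
      positivity
  refine h2.trans (le_of_eq ?_)
  rw [sum_product]
  simp only [sum_const, nsmul_eq_mul]

open Classical in
/-- the number of pairs -/
theorem pairs_w (G : ℕ → ℤ → Prop) (κ : ℝ)
    (W : ∃ c : ℝ, 0 < c ∧ ∃ N₀ : ℕ, ∀ N : ℕ, N₀ ≤ N → ∀ (u : ℕ) (A : Finset ℕ), A ⊆ Ioc u (u + N) →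
      (N : ℝ) ^ (1 - κ) ≤ A.card → c * (A.card : ℝ) ^ 2 ≤
        ∑ x ∈ (A ×ˢ A).filter (fun x : ℕ × ℕ => x.1 < x.2 ∧ G N ((x.2 : ℤ) - x.1)),
          (9 : ℝ) ^ ((x.2 - x.1).primeFactors.card))
    (δ : ℝ) (hδ : 0 < δ) :
    ∃ C : ℝ, 0 < C ∧ ∃ N₀ : ℕ, ∀ N : ℕ, N₀ ≤ N → ∀ (u : ℕ) (A : Finset ℕ), A ⊆ Ioc u (u + N) →
      (N : ℝ) ^ (1 - κ) ≤ A.card → (A.card : ℝ) ^ 2 * (((A.card : ℝ) / N) ^ δ * Real.log N ^ (-C)) ≤
        ((A ×ˢ A).filter (fun x : ℕ × ℕ => x.1 < x.2 ∧ G N ((x.2 : ℤ) - x.1))).card := by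
  obtain ⟨c, hc, N₁, hN₁⟩ := W
  obtain ⟨n, hn⟩ := exists_nat_ge (1 / δ)
  have hn1 : 1 ≤ δ * n := by
    rw [div_le_iff₀ hδ] at hn
    linarith
  have hn0 : n ≠ 0 := by
    rintro rfl
    norm_num at hn1
  obtain ⟨E, hE⟩ : ∃ E : ℝ, E = 9 ^ (n + 1) := ⟨_, rfl⟩
  have hE1 : 1 ≤ E := by rw [hE]; exact one_le_pow₀ (by norm_num)
  obtain ⟨D, hD, hD'⟩ := sum_pow_omega_log E hE1
  obtain ⟨N₂, hN₂⟩ := Filter.eventually_atTop.1
    ((Real.tendsto_log_atTop.comp tendsto_natCast_atTop_atTop).eventually_ge_atTop (D / c ^ (n + 1)))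
  refine ⟨E + 1, by linarith, N₁ + N₂ + 3, fun N hN u A hA hAc => ?_⟩
  have hN3 : (3 : ℝ) ≤ N := by exact_mod_cast (by omega : 3 ≤ N)
  have hN0 : (0 : ℝ) < N := by linarith
  obtain ⟨L, hL⟩ : ∃ L : ℝ, L = Real.log N := ⟨_, rfl⟩
  have hl : 1 ≤ L := by
    rw [hL, Real.le_log_iff_exp_le (by linarith)]
    linarith [Real.exp_one_lt_d9]
  have hl0 : 0 < L := by linarith
  have hw := hN₁ N (by omega) u A hA hAc
  have hp := pairs_power G n N u A hA
  have hd := hD' N (by omega)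
  have hDL : D / c ^ (n + 1) ≤ L := by rw [hL]; exact hN₂ N (by omega)
  rw [← hE] at hp
  rw [← hL] at hd ⊢
  obtain ⟨P, hP⟩ : ∃ P : ℝ, P = ((A ×ˢ A).filter (fun x : ℕ × ℕ => x.1 < x.2 ∧ G N ((x.2 : ℤ) - x.1))).card := ⟨_, rfl⟩
  rw [← hP] at hp ⊢
  have hP0 : 0 ≤ P := by rw [hP]; exact Nat.cast_nonneg _
  obtain ⟨a, ha⟩ : ∃ a : ℝ, a = A.card := ⟨_, rfl⟩
  rw [← ha] at hp hw hAc ⊢
  have ha0 : 0 < a := lt_of_lt_of_le (by positivity) hAc
  have haN : a ≤ N := by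
    have := card_le_card hA
    rw [Nat.card_Ioc] at this
    rw [ha]
    exact_mod_cast (by omega : A.card ≤ N)
  have h1 : (c * a ^ 2) ^ (n + 1) ≤ P ^ n * (a * (D * N * L ^ E)) := by
    refine (pow_le_pow_left₀ (by positivity) hw _).trans (hp.trans ?_)
    gcongr
  have hα0 : 0 < a / N := by positivity
  have hα1 : a / N ≤ 1 := (div_le_one hN0).2 haN
  refine (pow_le_pow_iff_left₀ (by positivity) hP0 hn0).1 ?_
  have hpos : 0 < a * (D * N * L ^ E) := by positivity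
  refine le_of_mul_le_mul_right ?_ hpos
  refine le_trans ?_ h1
  have h2 : ((a / N) ^ δ) ^ n ≤ a / N := by
    rw [← Real.rpow_natCast, ← Real.rpow_mul hα0.le]
    calc (a / N) ^ (δ * n) ≤ (a / N) ^ (1 : ℝ) := Real.rpow_le_rpow_of_exponent_ge hα0 hα1 hn1
      _ = a / N := Real.rpow_one _
  have h3 : (L ^ (-(E + 1))) ^ n ≤ L ^ (-(E + 1)) := by
    apply pow_le_of_le_one (by positivity) _ hn0
    exact Real.rpow_le_one_of_one_le_of_nonpos hl (by linarith)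
  have h4 : L ^ (-(E + 1)) * L ^ E = L⁻¹ := by
    rw [← Real.rpow_add hl0, ← Real.rpow_neg_one]
    congr 1
    ring
  have h5 : D * L⁻¹ ≤ c ^ (n + 1) := by
    rw [div_le_iff₀ (by positivity)] at hDL
    rw [← div_eq_mul_inv, div_le_iff₀ hl0]
    linarith
  calc (a ^ 2 * ((a / N) ^ δ * L ^ (-(E + 1)))) ^ n * (a * (D * N * L ^ E)) =
      (a ^ 2) ^ n * (((a / N) ^ δ) ^ n * (L ^ (-(E + 1))) ^ n) * (a * (D * N * L ^ E)) := by
        rw [mul_pow, mul_pow]
    _ ≤ (a ^ 2) ^ n * ((a / N) * L ^ (-(E + 1))) * (a * (D * N * L ^ E)) := by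
        gcongr
    _ = (a ^ 2) ^ (n + 1) * (D * (L ^ (-(E + 1)) * L ^ E)) := by
        field_simp
        ring
    _ ≤ (a ^ 2) ^ (n + 1) * c ^ (n + 1) := by
        rw [h4]
        gcongr
    _ = (c * a ^ 2) ^ (n + 1) := by rw [mul_pow, mul_comm]

open Classical in
/-- cliques, with the same form of loss -/
theorem cliques_w (G : ℕ → ℤ → Prop) (κ : ℝ)
    (H : ∀ δ : ℝ, 0 < δ → ∃ C : ℝ, 0 < C ∧ ∃ N₀ : ℕ, ∀ N : ℕ, N₀ ≤ N → ∀ (u : ℕ) (A : Finset ℕ),
      A ⊆ Ioc u (u + N) → (N : ℝ) ^ (1 - κ) ≤ A.card →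
        (A.card : ℝ) ^ 2 * (((A.card : ℝ) / N) ^ δ * Real.log N ^ (-C)) ≤
        ((A ×ˢ A).filter (fun x : ℕ × ℕ => x.1 < x.2 ∧ G N ((x.2 : ℤ) - x.1))).card) :
    ∀ κ' : ℝ, κ' < κ → ∀ k : ℕ, ∀ δ : ℝ, 0 < δ → ∃ C : ℝ, 0 < C ∧ ∃ N₀ : ℕ, ∀ N : ℕ, N₀ ≤ N →
      ∀ (u : ℕ) (A : Finset ℕ), A ⊆ Ioc u (u + N) → (N : ℝ) ^ (1 - κ') ≤ A.card →
      (A.card : ℝ) ^ k * (((A.card : ℝ) / N) ^ δ * Real.log N ^ (-C)) ≤
        ((A.powersetCard k).filter (fun S : Finset ℕ => ∀ a ∈ S, ∀ b ∈ S, a < b → G N ((b : ℤ) - a))).card := by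
  suffices hmain : ∀ k : ℕ, ∀ κ' : ℝ, κ' < κ → ∀ δ : ℝ, 0 < δ → ∃ C : ℝ, 0 < C ∧ ∃ N₀ : ℕ, ∀ N : ℕ, N₀ ≤ N →
      ∀ (u : ℕ) (A : Finset ℕ), A ⊆ Ioc u (u + N) → (N : ℝ) ^ (1 - κ') ≤ A.card →
      (A.card : ℝ) ^ k * (((A.card : ℝ) / N) ^ δ * Real.log N ^ (-C)) ≤ (cl G N A k).card by
    intro κ' hκ k δ hδ
    obtain ⟨C, hC, N₀, hN₀⟩ := hmain k κ' hκ δ hδ
    exact ⟨C, hC, N₀, fun N hN u A hA hAc => hN₀ N hN u A hA hAc⟩
  have hlog3 : ∀ N : ℕ, 3 ≤ N → 1 ≤ Real.log N := by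
    intro N hN
    have hN3 : (3 : ℝ) ≤ N := by exact_mod_cast hN
    rw [Real.le_log_iff_exp_le (by linarith)]
    linarith [Real.exp_one_lt_d9]
  have hcardN : ∀ (N u : ℕ) (A : Finset ℕ), A ⊆ Ioc u (u + N) → (A.card : ℝ) ≤ N := by
    intro N u A hA
    have := card_le_card hA
    rw [Nat.card_Ioc] at this
    exact_mod_cast (by omega : A.card ≤ N)
  intro k
  induction k with
  | zero =>
    intro κ' _ δ hδ
    refine ⟨1, one_pos, 3, fun N hN u A hA _ => ?_⟩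
    have hl := hlog3 N hN
    have hN0 : (0 : ℝ) < N := by exact_mod_cast (by omega : 0 < N)
    have h1 : (1 : ℝ) ≤ (cl G N A 0).card := by
      have : (∅ : Finset ℕ) ∈ cl G N A 0 := by
        rw [mem_cl]
        exact ⟨⟨empty_subset _, card_empty⟩, fun a ha => absurd ha (notMem_empty _)⟩
      exact_mod_cast card_pos.2 ⟨_, this⟩
    rw [pow_zero, one_mul]
    have h2 : ((A.card : ℝ) / N) ^ δ ≤ 1 := Real.rpow_le_one (by positivity) ((div_le_one hN0).2 (hcardN N u A hA)) hδ.le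
    have h3 : Real.log N ^ (-1 : ℝ) ≤ 1 := Real.rpow_le_one_of_one_le_of_nonpos hl (by norm_num)
    have h4 : 0 ≤ Real.log N ^ (-1 : ℝ) := by positivity
    calc ((A.card : ℝ) / N) ^ δ * Real.log N ^ (-1 : ℝ) ≤ 1 * 1 := mul_le_mul h2 h3 h4 (by norm_num)
      _ = 1 := one_mul 1
      _ ≤ _ := h1
  | succ k ih =>
    intro κ' hκ δ hδ
    obtain ⟨C2, hC2, N₁, hN₁⟩ := ih ((κ' + κ) / 2) (by linarith) (δ / 2) (by positivity)
    obtain ⟨e, he⟩ : ∃ e : ℝ, e = min (δ / (2 * (k + 1 + δ))) ((κ - κ') / (4 * (|κ'| + 1))) := ⟨_, rfl⟩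
    have hκκ : 0 < κ - κ' := by linarith
    have he0 : 0 < e := by rw [he]; positivity
    obtain ⟨s, hs⟩ : ∃ s : ℝ, s = k + 1 + δ / 2 := ⟨_, rfl⟩
    have hs0 : 0 < s := by rw [hs]; positivity
    have he1 : e * s ≤ δ / 2 := by
      have h1 : e ≤ δ / (2 * (k + 1 + δ)) := by rw [he]; exact min_le_left _ _
      calc e * s ≤ δ / (2 * (k + 1 + δ)) * (k + 1 + δ) := by
            apply mul_le_mul h1 _ hs0.le (by positivity)
            rw [hs]
            linarith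
        _ = δ / 2 := by field_simp
    have he2 : κ' * e ≤ (κ - κ') / 4 := by
      have h1 : e ≤ (κ - κ') / (4 * (|κ'| + 1)) := by rw [he]; exact min_le_right _ _
      have h2 : κ' ≤ |κ'| + 1 := by linarith [le_abs_self κ']
      calc κ' * e ≤ (|κ'| + 1) * e := mul_le_mul_of_nonneg_right h2 he0.le
        _ ≤ (|κ'| + 1) * ((κ - κ') / (4 * (|κ'| + 1))) := mul_le_mul_of_nonneg_left h1 (by positivity)
        _ = (κ - κ') / 4 := by field_simp
    obtain ⟨C1, hC1, N₂, hN₂⟩ := H e he0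
    have ht1 : ∀ᶠ x : ℝ in Filter.atTop, Real.log x ^ C1 ≤ 1 / 2 * x ^ ((κ - κ') / 4) := by
      have := (isLittleO_log_rpow_rpow_atTop C1 (show 0 < (κ - κ') / 4 by positivity)).def (show (0 : ℝ) < 1 / 2 by norm_num)
      filter_upwards [this, Filter.eventually_ge_atTop 1] with x hx hx1
      have h1 : 0 ≤ Real.log x ^ C1 := Real.rpow_nonneg (Real.log_nonneg hx1) _
      have h2 : 0 ≤ x ^ ((κ - κ') / 4) := Real.rpow_nonneg (by linarith) _
      rwa [Real.norm_of_nonneg h1, Real.norm_of_nonneg h2] at hx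
    obtain ⟨N₃, hN₃⟩ := Filter.eventually_atTop.1 ((tendsto_natCast_atTop_atTop.eventually ht1).and
      ((Real.tendsto_log_atTop.comp tendsto_natCast_atTop_atTop).eventually_ge_atTop ((2 : ℝ) ^ s)))
    refine ⟨C1 * s + C2 + 1, by positivity, N₁ + N₂ + N₃ + 3, ?_⟩
    intro N hN u A hA hAc
    obtain ⟨hb1, hb2⟩ := hN₃ N (by omega)
    simp only [Function.comp] at hb2
    have hN3 : (3 : ℝ) ≤ N := by exact_mod_cast (by omega : 3 ≤ N)
    have hN1 : (1 : ℝ) ≤ N := by linarith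
    have hN0 : (0 : ℝ) < N := by linarith
    have hpairs := hN₂ N (by omega) u A hA (by
      refine le_trans ?_ hAc
      apply Real.rpow_le_rpow_of_exponent_le hN1
      linarith)
    have hpe : (((A ×ˢ A).filter (fun x : ℕ × ℕ => x.1 < x.2 ∧ G N ((x.2 : ℤ) - x.1))).card : ℝ) =
        ∑ a ∈ A, ((nb G N A a).card : ℝ) := by
      have := pairs_eq G N A
      rw [← Nat.cast_sum, ← this]
    rw [hpe] at hpairs
    have hl : 1 ≤ Real.log N := hlog3 N (by omega)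
    have haN := hcardN N u A hA
    obtain ⟨L, hL⟩ : ∃ L : ℝ, L = Real.log N := ⟨_, rfl⟩
    rw [← hL] at hpairs hb1 hb2 hl ⊢
    have hl0 : 0 < L := by linarith
    obtain ⟨α, hα⟩ : ∃ α : ℝ, α = A.card / N := ⟨_, rfl⟩
    rw [← hα] at hpairs ⊢
    have hA0 : (0 : ℝ) < A.card := lt_of_lt_of_le (by positivity) hAc
    have hα0 : 0 < α := by rw [hα]; positivity
    have hα1 : α ≤ 1 := by rw [hα]; exact (div_le_one hN0).2 haN
    obtain ⟨θ, hθ⟩ : ∃ θ : ℝ, θ = α ^ e * L ^ (-C1) := ⟨_, rfl⟩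
    rw [← hθ] at hpairs
    have hθ0 : 0 < θ := by rw [hθ]; positivity
    obtain ⟨B, hBA, hBc, hBn⟩ := many G N A θ hθ0.le hpairs
    have hhalf : (0 : ℝ) < A.card * (θ / 2) := by positivity
    -- the neighbourhoods are large
    have hθlow : (N : ℝ) ^ (-((κ - κ') / 2)) ≤ θ / 2 := by
      have h1 : (N : ℝ) ^ (-((κ - κ') / 4)) ≤ α ^ e := by
        have h2 : (N : ℝ) ^ (-κ') ≤ α := by
          rw [hα, le_div_iff₀ hN0]
          refine le_trans (le_of_eq ?_) hAc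
          rw [sub_eq_neg_add, Real.rpow_add hN0, Real.rpow_one]
        calc (N : ℝ) ^ (-((κ - κ') / 4)) ≤ (N : ℝ) ^ (-κ' * e) :=
              Real.rpow_le_rpow_of_exponent_le hN1 (by linarith)
          _ = ((N : ℝ) ^ (-κ')) ^ e := by rw [Real.rpow_mul hN0.le]
          _ ≤ α ^ e := Real.rpow_le_rpow (by positivity) h2 he0.le
      have h3 : (N : ℝ) ^ (-((κ - κ') / 4)) ≤ L ^ (-C1) / 2 := by
        rw [Real.rpow_neg hN0.le, Real.rpow_neg hl0.le, ← one_div, ← one_div, div_div, div_le_div_iff₀ (by positivity) (by positivity)]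
        linarith
      calc (N : ℝ) ^ (-((κ - κ') / 2)) = (N : ℝ) ^ (-((κ - κ') / 4)) * (N : ℝ) ^ (-((κ - κ') / 4)) := by
            rw [← Real.rpow_add hN0]
            congr 1
            ring
        _ ≤ α ^ e * (L ^ (-C1) / 2) := mul_le_mul h1 h3 (by positivity) (by positivity)
        _ = θ / 2 := by rw [hθ]; ring
    have hlarge : (N : ℝ) ^ (1 - (κ' + κ) / 2) ≤ A.card * (θ / 2) := by
      calc (N : ℝ) ^ (1 - (κ' + κ) / 2) = (N : ℝ) ^ (1 - κ') * (N : ℝ) ^ (-((κ - κ') / 2)) := by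
            rw [← Real.rpow_add hN0]
            congr 1
            ring
        _ ≤ A.card * (θ / 2) := mul_le_mul hAc hθlow (by positivity) hA0.le
    have hcl : ∀ a ∈ B, (A.card * (θ / 2)) ^ k * ((A.card * (θ / 2) / N) ^ (δ / 2) * L ^ (-C2)) ≤
        ((cl G N (nb G N A a) k).card : ℝ) := by
      intro a ha
      have h1 := hN₁ N (by omega) u (nb G N A a) ((nb_subset G N A a).trans hA) (hlarge.trans (hBn a ha))
      rw [← hL] at h1
      refine le_trans ?_ h1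
      have := hBn a ha
      gcongr
    have hsum := sum_cl G N A B hBA k
    have hsumR : ∑ a ∈ B, ((cl G N (nb G N A a) k).card : ℝ) ≤ (cl G N A (k + 1)).card := by exact_mod_cast hsum
    refine le_trans ?_ hsumR
    have hθs : α ^ (δ / 2) * L ^ (-(C1 * s + 1)) ≤ (θ / 2) ^ s := by
      have h1 : (θ / 2) ^ s = α ^ (e * s) * (L ^ (-(C1 * s)) * ((2 : ℝ) ^ s)⁻¹) := by
        rw [Real.div_rpow hθ0.le (by norm_num), hθ, Real.mul_rpow (by positivity) (by positivity),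
          ← Real.rpow_mul hα0.le, ← Real.rpow_mul hl0.le]
        rw [neg_mul, div_eq_mul_inv, mul_assoc]
      rw [h1]
      apply mul_le_mul (Real.rpow_le_rpow_of_exponent_ge hα0 hα1 he1) _ (by positivity) (by positivity)
      rw [neg_add, Real.rpow_add hl0, Real.rpow_neg_one]
      apply mul_le_mul_of_nonneg_left _ (by positivity)
      exact inv_anti₀ (by positivity) hb2
    calc (A.card : ℝ) ^ (k + 1) * (α ^ δ * L ^ (-(C1 * s + C2 + 1))) =
        (A.card : ℝ) ^ (k + 1) * (α ^ (δ / 2) * L ^ (-(C1 * s + 1)) * (α ^ (δ / 2) * L ^ (-C2))) := by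
          have h1 : α ^ δ = α ^ (δ / 2) * α ^ (δ / 2) := by
            rw [← Real.rpow_add hα0]
            congr 1
            ring
          have h2 : L ^ (-(C1 * s + C2 + 1)) = L ^ (-(C1 * s + 1)) * L ^ (-C2) := by
            rw [← Real.rpow_add hl0]
            congr 1
            ring
          rw [h1, h2]
          ring
      _ ≤ (A.card : ℝ) ^ (k + 1) * ((θ / 2) ^ s * (α ^ (δ / 2) * L ^ (-C2))) := by
          gcongr
      _ = (A.card * (θ / 2)) * ((A.card * (θ / 2)) ^ k * ((A.card * (θ / 2) / N) ^ (δ / 2) * L ^ (-C2))) := by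
          have h1 : (A.card : ℝ) * (θ / 2) / N = α * (θ / 2) := by rw [hα]; ring
          have h2 : (θ / 2) ^ s = (θ / 2) ^ (k + 1) * (θ / 2) ^ (δ / 2) := by
            rw [hs, Real.rpow_add (by positivity)]
            congr 1
            rw [← Real.rpow_natCast]
            congr 1
            push_cast
            ring
          rw [h1, h2, Real.mul_rpow hα0.le (by positivity)]
          ring
      _ ≤ B.card * ((A.card * (θ / 2)) ^ k * ((A.card * (θ / 2) / N) ^ (δ / 2) * L ^ (-C2))) := by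
          apply mul_le_mul_of_nonneg_right hBc (by positivity)
      _ = ∑ _a ∈ B, ((A.card * (θ / 2)) ^ k * ((A.card * (θ / 2) / N) ^ (δ / 2) * L ^ (-C2))) := by
          rw [sum_const, nsmul_eq_mul]
      _ ≤ _ := sum_le_sum hcl

open Classical in
/-- differences of a colour class: simultaneous approximation (after helper16's `many_h`) -/
theorem bohr_w (κ δ C : ℝ) (hδ : 0 < δ) (N : ℕ) (hN : 3 ≤ N) (P : ℤ → Prop)
    (H : ∀ A ⊆ Ioc 0 (0 + N), (N : ℝ) ^ (1 - κ) ≤ A.card →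
      (A.card : ℝ) ^ 2 * (((A.card : ℝ) / N) ^ δ * Real.log N ^ (-C)) ≤
        ((A ×ˢ A).filter (fun x : ℕ × ℕ => x.1 < x.2 ∧ P ((x.2 : ℤ) - x.1))).card)
    (k m : ℕ) (hm : 0 < m) (hmN : ((m : ℝ) ^ k) ≤ (N : ℝ) ^ κ) (α : Fin k → ℝ) :
    N * (((m : ℝ) ^ k) ^ (-(1 + δ)) * Real.log N ^ (-C)) ≤
      ((Icc 1 N).filter (fun h : ℕ => (∀ i, |(h : ℝ) * α i - round ((h : ℝ) * α i)| < 1 / (m : ℝ)) ∧ P h)).card := by
  have hN3 : (3 : ℝ) ≤ N := by exact_mod_cast hN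
  have hN0 : (0 : ℝ) < N := by linarith
  have hl : 1 ≤ Real.log N := by
    rw [Real.le_log_iff_exp_le (by linarith)]
    linarith [Real.exp_one_lt_d9]
  have hm0 : (0 : ℝ) < m := by exact_mod_cast hm
  obtain ⟨M, hM⟩ : ∃ M : ℝ, M = (m : ℝ) ^ k := ⟨_, rfl⟩
  have hM0 : 0 < M := by rw [hM]; positivity
  rw [← hM] at hmN ⊢
  have : NeZero m := ⟨hm.ne'⟩
  -- the colouring
  set F : ℕ → (Fin k → Fin m) := fun a i => ⟨⌊m * Int.fract (a * α i)⌋₊, by
    have h1 := Int.fract_lt_one ((a : ℝ) * α i)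
    have h0 := Int.fract_nonneg ((a : ℝ) * α i)
    rw [Nat.floor_lt (by positivity)]
    nlinarith⟩ with hF
  obtain ⟨c, _, hc⟩ := exists_le_card_fiber_of_nsmul_le_card_of_maps_to (s := Ioc 0 (0 + N))
    (t := (univ : Finset (Fin k → Fin m))) (f := F) (b := N / M) (fun _ _ => mem_univ _)
    univ_nonempty (by
      rw [card_univ, Fintype.card_fun, Fintype.card_fin, Fintype.card_fin, nsmul_eq_mul, Nat.card_Ioc]
      push_cast
      rw [← hM, mul_div_cancel₀ _ hM0.ne']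
      norm_num)
  set A := (Ioc 0 (0 + N)).filter (fun x => F x = c) with hA
  have hcA : (N : ℝ) ^ (1 - κ) ≤ A.card := by
    refine le_trans ?_ hc
    rw [le_div_iff₀ hM0]
    calc (N : ℝ) ^ (1 - κ) * M ≤ (N : ℝ) ^ (1 - κ) * (N : ℝ) ^ κ := mul_le_mul_of_nonneg_left hmN (by positivity)
      _ = N := by rw [← Real.rpow_add hN0, sub_add_cancel, Real.rpow_one]
  have h1 := H A (filter_subset _ _) hcA
  set W := (Icc 1 N).filter (fun h : ℕ => (∀ i, |(h : ℝ) * α i - round ((h : ℝ) * α i)| < 1 / (m : ℝ)) ∧ P h) with hW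
  have h2 : ((A ×ˢ A).filter (fun x : ℕ × ℕ => x.1 < x.2 ∧ P ((x.2 : ℤ) - x.1))).card ≤ (A ×ˢ W).card := by
    apply card_le_card_of_injOn (fun x : ℕ × ℕ => (x.1, x.2 - x.1))
    · rintro ⟨a, b⟩ hx
      rw [mem_coe, mem_filter, mem_product] at hx
      obtain ⟨⟨ha, hb⟩, hab, hP⟩ := hx
      simp only at ha hb hab hP
      rw [mem_coe, mem_product]
      refine ⟨ha, ?_⟩
      simp only
      obtain ⟨ha1, ha2⟩ := mem_filter.1 ha
      obtain ⟨hb1, hb2⟩ := mem_filter.1 hb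
      have hb3 := mem_Ioc.1 hb1
      have e : ((b - a : ℕ) : ℤ) = (b : ℤ) - a := by omega
      have e' : ((b - a : ℕ) : ℝ) = (b : ℝ) - a := by
        rw [Nat.cast_sub hab.le]
      rw [hW, mem_filter, mem_Icc]
      refine ⟨by omega, ?_, ?_⟩
      · intro i
        rw [e']
        have h3 : (F a i : ℕ) = (F b i : ℕ) := by rw [ha2, hb2]
        simp only [hF] at h3
        set x := Int.fract ((a : ℝ) * α i) with hx
        set y := Int.fract ((b : ℝ) * α i) with hy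
        have hx0 := Int.fract_nonneg ((a : ℝ) * α i)
        have hy0 := Int.fract_nonneg ((b : ℝ) * α i)
        rw [← hx] at hx0
        rw [← hy] at hy0
        have l1 := Nat.floor_le (mul_nonneg hm0.le hx0)
        have l2 := Nat.lt_floor_add_one ((m : ℝ) * x)
        have l3 := Nat.floor_le (mul_nonneg hm0.le hy0)
        have l4 := Nat.lt_floor_add_one ((m : ℝ) * y)
        have h4 : (⌊(m : ℝ) * x⌋₊ : ℝ) = (⌊(m : ℝ) * y⌋₊ : ℝ) := by exact_mod_cast h3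
        have h5 : |y - x| < 1 / m := by
          rw [abs_lt, div_eq_mul_inv, one_mul]
          have hmi : (m : ℝ) * (m : ℝ)⁻¹ = 1 := mul_inv_cancel₀ hm0.ne'
          constructor
          · by_contra hc'
            push Not at hc'
            have : (m : ℝ) * (y - x) ≤ m * (-(m : ℝ)⁻¹) := mul_le_mul_of_nonneg_left hc' hm0.le
            nlinarith
          · by_contra hc'
            push Not at hc'
            have : m * ((m : ℝ)⁻¹) ≤ (m : ℝ) * (y - x) := mul_le_mul_of_nonneg_left hc' hm0.le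
            nlinarith
        have h6 : ((b : ℝ) - a) * α i - ((⌊(b : ℝ) * α i⌋ - ⌊(a : ℝ) * α i⌋ : ℤ) : ℝ) = y - x := by
          rw [hx, hy]
          unfold Int.fract
          push_cast
          ring
        calc |((b : ℝ) - a) * α i - round (((b : ℝ) - a) * α i)| ≤
            |((b : ℝ) - a) * α i - ((⌊(b : ℝ) * α i⌋ - ⌊(a : ℝ) * α i⌋ : ℤ) : ℝ)| := round_le _ _
          _ = |y - x| := by rw [h6]
          _ < 1 / m := h5
      · rw [e]
        exact hP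
    · rintro ⟨a, b⟩ hx ⟨a', b'⟩ hx' h
      rw [mem_coe, mem_filter] at hx hx'
      simp only [Prod.mk.injEq] at h hx hx' ⊢
      omega
  rw [card_product] at h2
  have h3 : (A.card : ℝ) ^ 2 * (((A.card : ℝ) / N) ^ δ * Real.log N ^ (-C)) ≤ A.card * W.card := by
    refine h1.trans ?_
    exact_mod_cast h2
  have hA0 : (0 : ℝ) < A.card := lt_of_lt_of_le (by positivity) hcA
  have h4 : (A.card : ℝ) * (((A.card : ℝ) / N) ^ δ * Real.log N ^ (-C)) ≤ W.card := by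
    have : (A.card : ℝ) * ((A.card : ℝ) * (((A.card : ℝ) / N) ^ δ * Real.log N ^ (-C))) ≤ A.card * W.card := by
      refine le_trans (le_of_eq ?_) h3
      ring
    exact le_of_mul_le_mul_left this hA0
  refine le_trans ?_ h4
  have h5 : M⁻¹ ≤ (A.card : ℝ) / N := by
    rw [inv_eq_one_div, div_le_div_iff₀ hM0 hN0, one_mul]
    rwa [div_le_iff₀ hM0] at hc
  have h6 : M ^ (-(1 + δ)) = M⁻¹ * (M⁻¹) ^ δ := by
    rw [Real.inv_rpow hM0.le, neg_add, Real.rpow_add hM0, Real.rpow_neg_one, Real.rpow_neg hM0.le]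
  have h7 : (N : ℝ) * ((A.card : ℝ) / N) = A.card := mul_div_cancel₀ _ hN0.ne'
  rw [h6]
  calc N * (M⁻¹ * (M⁻¹) ^ δ * Real.log N ^ (-C)) = N * M⁻¹ * ((M⁻¹) ^ δ * Real.log N ^ (-C)) := by ring
    _ ≤ N * ((A.card : ℝ) / N) * (((A.card : ℝ) / N) ^ δ * Real.log N ^ (-C)) := by gcongr
    _ = _ := by rw [h7]

end Pool.Agent.H13.P3
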